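import Pool.Agent.Lib.MP_d1327c_gt.ZH.Spec

/-!
# Module APX (helper68): uniform approximation by the functions of letters
-/

set_option autoImplicit false

open Set Topology TopologicalSpace

namespace MPd1327c.ZH

universe u v w

namespace APXM

open Classical in
/-- the pattern of membership -/
noncomputable def pt {Y : Type u} (L : List (Set Y)) (y : Y) : List Bool :=
  L.map fun l => decide (y ∈ l)

theorem val_eq {Y : Type u} (L : List (Set Y)) (φ : List Bool →₀ ℚ) (y : Y) :
    val (L, φ) y = ((φ (pt L y) : ℚ) : ℝ) := rfl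

theorem length_pt {Y : Type u} (L : List (Set Y)) (y : Y) : (pt L y).length = L.length := by
  simp [pt]

theorem mem_iff {Y : Type u} {L : List (Set Y)} {y y' : Y} (h : pt L y = pt L y') {l : Set Y}
    (hl : l ∈ L) : y ∈ l ↔ y' ∈ l := by
  classical
  have h1 := List.map_inj_left.1 h l hl
  exact decide_eq_decide.1 h1

/-- compactness: finitely many members of `𝔸` are enough -/
theorem finite {Y : Type u} [TopologicalSpace Y] [CompactSpace Y] (𝔸 : Set (Set Y))
    (hc : ∀ l ∈ 𝔸, IsClopen l) (hs : ∀ y y' : Y, (∀ l ∈ 𝔸, (y ∈ l ↔ y' ∈ l)) → y = y')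
    (u : Y → ℝ) (hu : Continuous u) (η : ℝ) (hη : 0 < η) :
    ∃ L : List (Set Y), (∀ l ∈ L, l ∈ 𝔸) ∧ ∀ y y', pt L y = pt L y' → |u y - u y'| < η := by
  classical
  have hK : IsCompact {q : Y × Y | η ≤ |u q.1 - u q.2|} := by
    refine IsClosed.isCompact ?_
    exact isClosed_le continuous_const
      ((hu.comp continuous_fst).sub (hu.comp continuous_snd)).abs
  have hop : ∀ l : 𝔸, IsOpen {q : Y × Y | ¬ (q.1 ∈ l.1 ↔ q.2 ∈ l.1)} := by
    intro l
    have h1 := hc l.1 l.2
    have h2 : {q : Y × Y | ¬ (q.1 ∈ l.1 ↔ q.2 ∈ l.1)} = (l.1 ×ˢ l.1ᶜ) ∪ (l.1ᶜ ×ˢ l.1) := by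
      ext q
      simp only [mem_ofPred_eq, mem_union, mem_prod, mem_compl_iff]
      tauto
    rw [h2]
    exact (h1.isOpen.prod h1.compl.isOpen).union (h1.compl.isOpen.prod h1.isOpen)
  obtain ⟨E, hE⟩ := hK.elim_finite_subcover (fun l : 𝔸 => {q : Y × Y | ¬ (q.1 ∈ l.1 ↔ q.2 ∈ l.1)})
    hop (by
      rintro ⟨y, y'⟩ h3
      rw [mem_iUnion]
      by_contra hcon
      rw [not_exists] at hcon
      have h5 : y = y' := hs y y' (fun l hl => by
        by_contra hn
        exact hcon ⟨l, hl⟩ hn)
      subst h5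
      have h6 : η ≤ |u y - u y| := h3
      rw [sub_self, abs_zero] at h6
      linarith)
  refine ⟨(E.image Subtype.val).toList, ?_, ?_⟩
  · intro l hl
    rw [Finset.mem_toList, Finset.mem_image] at hl
    obtain ⟨j, -, rfl⟩ := hl
    exact j.2
  · intro y y' h
    by_contra hcon
    push Not at hcon
    have h1 := hE (show (y, y') ∈ {q : Y × Y | η ≤ |u q.1 - u q.2|} from hcon)
    simp only [mem_iUnion, exists_prop] at h1
    obtain ⟨j, hj, h2⟩ := h1
    refine h2 (mem_iff h ?_)
    rw [Finset.mem_toList]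
    exact Finset.mem_image_of_mem _ hj

end APXM

theorem specAPX : SpecAPX := by
  classical
  intro Y _ _ 𝔸 hc hs u hu η hη
  obtain ⟨L, hL, hE⟩ := APXM.finite 𝔸 hc hs u hu (η / 2) (by positivity)
  let φ : List Bool → ℚ := fun e =>
    if h : ∃ y, APXM.pt L y = e then
      (exists_rat_near (u h.choose) (ε := η / 2) (by positivity)).choose else 0
  have hfin : {e : List Bool | e.length = L.length}.Finite := List.finite_length_eq Bool L.length
  let f : List Bool →₀ ℚ := Finsupp.onFinset hfin.toFinset φ (by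
    intro e he
    rw [Set.Finite.mem_toFinset, mem_ofPred_eq]
    by_contra hcon
    apply he
    refine dif_neg ?_
    rintro ⟨y, rfl⟩
    exact hcon (APXM.length_pt L y))
  refine ⟨(L, f), hL, fun y => ?_⟩
  rw [APXM.val_eq]
  have h : ∃ y', APXM.pt L y' = APXM.pt L y := ⟨y, rfl⟩
  have h1 : f (APXM.pt L y) =
      (exists_rat_near (u h.choose) (ε := η / 2) (by positivity)).choose := by
    show φ (APXM.pt L y) = _
    exact dif_pos h
  have h2 := (exists_rat_near (u h.choose) (ε := η / 2) (by positivity)).choose_spec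
  have h3 := hE y h.choose h.choose_spec.symm
  rw [h1]
  calc |u y - _| ≤ |u y - u h.choose| + |u h.choose - _| := abs_sub_le _ _ _
    _ < η / 2 + η / 2 := add_lt_add h3 h2
    _ = η := by ring

end MPd1327c.ZH
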