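import Pool.Agent.Lib.MP_d1327c_gt.ZH.Spec

/-!
# MP_d1327c_gt, spaces of countable metrizable height: the assembly (module ASM)
-/

set_option autoImplicit false

open Set Topology TopologicalSpace

namespace MPd1327c.ZH

universe u v w

namespace ASMM

/-- closed metrizable subspaces of compact spaces are second countable -/
private theorem secCount {K : Type w} [TopologicalSpace K] [CompactSpace K] (F : Set K)
    (hF : IsClosed F) (hm : MetrizableSpace F) : SecondCountableTopology F := by
  have h1 : CompactSpace F := isCompact_iff_compactSpace.1 hF.isCompact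
  let _ := metrizableSpaceMetric F
  infer_instance

/-- levels and pieces are pulled back by continuous maps -/
private theorem levPull {I : Type v} [LinearOrder I] {K : Type u} {Z : Type w}
    [TopologicalSpace K] [TopologicalSpace Z] (F : I → Set K) (lev : K → I)
    (pc : I → Set (Set K)) (h : Lev F lev pc) (p : Z → K) (hp : Continuous p) :
    Lev (fun i => p ⁻¹' F i) (fun z => lev (p z)) (fun α => (fun P => p ⁻¹' P) '' pc α) where
  closed α := (h.closed α).preimage hp
  cover z := by
    obtain ⟨P, hP, hz⟩ := h.cover (p z)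
    exact ⟨p ⁻¹' P, ⟨P, hP, rfl⟩, hz⟩
  sub := by
    rintro α _ ⟨P, hP, rfl⟩ z hz
    exact h.sub α P hP _ hz
  disj := by
    rintro α _ ⟨P, hP, rfl⟩ _ ⟨Q, hQ, rfl⟩ z hz hz'
    rw [h.disj α P hP Q hQ (p z) hz hz']
  opn := by
    rintro α _ ⟨P, hP, rfl⟩
    obtain ⟨U, hU, hUP⟩ := h.opn α P hP
    exact ⟨p ⁻¹' U, hU.preimage hp, fun z hz => hUP (p z) hz⟩
  bdd := by
    rintro α _ ⟨P, hP, rfl⟩
    obtain ⟨j, hj⟩ := h.bdd α P hP
    exact ⟨j, preimage_mono hj⟩

end ASMM

open ASMM

/-- the module ASM -/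
theorem specASM (hPCS : SpecPCS.{v, w}) (hZDP : SpecZDP.{v, w}) (hGEN : SpecGEN.{v, max v w})
    (hSLC : SpecSLC.{v, max v w}) (hCHA : SpecCHA.{u, v, max v w})
    (hTRE : SpecTRE.{max u v w, v}) : SpecASM.{u, v, w} := by
  intro I _ _ _ hI A K _ _ _ o F lev hFc hFm hFmono ho hFun hlc hlm X hX hsupp
  have hsc : ∀ a i, SecondCountableTopology (F a i) := fun a i =>
    secCount _ (hFc a i) (hFm a i)
  choose Z tZ cZ hZ dZ p hpc hps hpo hpF using fun a =>
    hZDP I hI (K a) (o a) (F a) (hFc a) (hFmono a) (hsc a) (ho a) (hFun a)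
  choose pc hpcL using fun a =>
    hPCS I hI (K a) (F a) (lev a) (hFc a) (hFmono a) (hFun a) (hlc a) (hlm a)
  have hL' : ∀ a, Lev (fun i => p a ⁻¹' F a i) (fun z => lev a (p a z))
      (fun α => (fun P => p a ⁻¹' P) '' pc a α) := fun a =>
    levPull _ _ _ (hpcL a) (p a) (hpc a)
  have hmono' : ∀ a, Monotone (fun i => p a ⁻¹' F a i) := fun a i j hij =>
    preimage_mono (hFmono a hij)
  have hM : ∀ a, ∃ M : I → Set (Set (Z a)), Mod (fun i => p a ⁻¹' F a i) M := by
    intro a
    obtain ⟨G, hG⟩ := hGEN I hI (Z a) _ _ _ (hmono' a) (hpF a) (hL' a)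
    exact hSLC I hI (Z a) _ _ _ G (fun i => (hFc a i).preimage (hpc a)) (hmono' a) (hL' a) hG
  choose M hM using hM
  choose o' ho' using fun a => hps a (o a)
  let X' : Set (∀ a, Z a) := {z | (fun a => p a (z a)) ∈ X}
  have hcont : Continuous fun z : (∀ a, Z a) => (fun a => p a (z a)) :=
    continuous_pi fun a => (hpc a).comp (continuous_apply a)
  have hX' : IsClosed X' := hX.preimage hcont
  have hcX' : CompactSpace X' := isCompact_iff_compactSpace.1 hX'.isCompact
  have hsupp' : ∀ x ∈ X', {a | x a ≠ o' a}.Countable := by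
    intro x hx
    refine (hsupp (fun a => p a (x a)) hx).mono ?_
    intro a ha h
    exact ha (hpo a _ _ h (ho' a))
  refine ⟨X', inferInstance, hcX', inferInstance, fun z => ⟨fun a => p a (z.1 a), z.2⟩,
    isTopologicalBasis_isClopen, ?_, ?_, ?_⟩
  · exact (hcont.comp continuous_subtype_val).subtype_mk _
  · intro x
    choose z hz using fun a => hps a (x.1 a)
    have hz' : (fun a => p a (z a)) = x.1 := funext hz
    exact ⟨⟨z, by show (fun a => p a (z a)) ∈ X; rw [hz']; exact x.2⟩, Subtype.ext hz'⟩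
  · refine hTRE I hI X' {l : Set X' | ∃ a, ∃ b : Set (Z a), IsClopen b ∧
      l = {x : X' | x.1 a ∈ b}} ?_ ?_ ?_
    · rintro _ ⟨a, b, hb, rfl⟩
      exact hb.preimage ((continuous_apply a).comp continuous_subtype_val)
    · intro y y' h
      refine Subtype.ext (funext fun a => ?_)
      by_contra hne
      obtain ⟨b, hb, h1, h2⟩ := exists_isClopen_of_totally_separated hne
      exact h2 ((h {x : X' | x.1 a ∈ b} ⟨a, b, hb, rfl⟩).1 h1)
    · intro E
      exact hCHA I hI A Z o' (fun a i => p a ⁻¹' F a i) M hmono'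
        (fun a i => by show p a (o' a) ∈ F a i; rw [ho' a]; exact ho a i)
        (fun a z => hFun a (p a z)) hM X' hsupp' E

end MPd1327c.ZH
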