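import Pool.Agent.Lib.MP_d1327c_gt.ZH.Spec

/-!
# MP_d1327c_gt, CHA: from the spaces `Z a` to subsets of the product
-/

set_option autoImplicit false

open Set Topology TopologicalSpace

namespace MPd1327c.ZH

universe u v w

namespace CHAM

section gen

variable {I : Type v} [LinearOrder I] {A : Type u} {Z : A → Type w} (X : Set (∀ a, Z a))
  (M : ∀ a, I → Set (Set (Z a))) (o : ∀ a, Z a) (E : List (W X) → Finset X)

/-- the sets of level `k` over the coordinates in `B` -/
def Mc (k : I) (B : Set A) : Set (Set X) :=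
  {∅, univ} ∪ ⋃ a ∈ B, (fun c : Set (Z a) => {x : X | x.1 a ∈ c}) '' M a k

/-- the supports of the members of `E s`, `s` over `Mc k B` -/
def N (k : I) (B : Set A) : Set A :=
  ⋃ s ∈ {s | OverL (Mc X M k B) s}, ⋃ y ∈ E s, {a | y.1 a ≠ o a}

theorem countable_over {Y : Type*} {S : Set (Set Y)} (hS : S.Countable) :
    {w : W Y | Over S w}.Countable := by
  have h0 : Countable S := hS.to_subtype
  have h1 : {L : List (Set Y) | ∀ l ∈ L, l ∈ S}.Countable := by
    rw [← Set.range_list_map_coe]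
    exact countable_range _
  have h2 : {w : W Y | Over S w} = {L : List (Set Y) | ∀ l ∈ L, l ∈ S} ×ˢ (univ : Set (List Bool →₀ ℚ)) := by
    ext w
    simp [Over]
  rw [h2]
  exact h1.prod countable_univ

theorem countable_overL {Y : Type*} {S : Set (Set Y)} (hS : S.Countable) :
    {s : List (W Y) | OverL S s}.Countable := by
  have h0 : Countable {w : W Y | Over S w} := (countable_over hS).to_subtype
  have h1 : {s : List (W Y) | OverL S s} = {L : List (W Y) | ∀ l ∈ L, l ∈ {w : W Y | Over S w}} := by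
    ext s
    simp [OverL]
  rw [h1, ← Set.range_list_map_coe]
  exact countable_range _

theorem Mc_countable (hM : ∀ a i, (M a i).Countable) (k : I) {B : Set A} (hB : B.Countable) :
    (Mc X M k B).Countable := by
  refine ((Set.finite_singleton _).insert _).countable.union ?_
  exact hB.biUnion fun a _ => (hM a k).image _

theorem N_countable (hM : ∀ a i, (M a i).Countable)
    (hX : ∀ x ∈ X, {a | x a ≠ o a}.Countable) (k : I) {B : Set A} (hB : B.Countable) :
    (N X M o E k B).Countable := by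
  refine (countable_overL (Mc_countable X M hM k hB)).biUnion fun s _ => ?_
  exact (E s).countable_toSet.biUnion fun y _ => hX y.1 y.2

theorem Mc_mono (hM : ∀ a, Monotone (M a)) {k k' : I} (hk : k ≤ k') {B B' : Set A} (hB : B ⊆ B') :
    Mc X M k B ⊆ Mc X M k' B' := by
  refine union_subset_union le_rfl ?_
  refine iUnion₂_subset fun a ha => ?_
  rintro _ ⟨c, hc, rfl⟩
  exact mem_biUnion (hB ha) ⟨c, hM a hk hc, rfl⟩

/-- the chain of countable sets of coordinates -/
noncomputable def Bs [WellFoundedLT I] : I → Set A :=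
  (wellFounded_lt (α := I)).fix fun i ih =>
    ⋃ (k : I) (h : k < i), (ih k h ∪ N X M o E k (ih k h))

theorem Bs_eq [WellFoundedLT I] (i : I) :
    Bs X M o E i = ⋃ (k : I) (_ : k < i), (Bs X M o E k ∪ N X M o E k (Bs X M o E k)) := by
  unfold Bs
  rw [WellFounded.fix_eq]

theorem Bs_countable [WellFoundedLT I] (hI : ∀ i : I, (Iio i).Countable)
    (hM : ∀ a i, (M a i).Countable) (hX : ∀ x ∈ X, {a | x a ≠ o a}.Countable) (i : I) :
    (Bs X M o E i).Countable := by
  induction i using (wellFounded_lt (α := I)).induction with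
  | _ i ih =>
    rw [Bs_eq]
    exact (hI i).biUnion fun k hk => (ih k hk).union (N_countable X M o E hM hX k (ih k hk))

theorem Bs_mono [WellFoundedLT I] : Monotone (Bs X M o E) := by
  intro i j hij
  rw [Bs_eq X M o E i, Bs_eq X M o E j]
  exact biUnion_subset_biUnion_left fun k hk => lt_of_lt_of_le hk hij

theorem N_sub [WellFoundedLT I] {i k : I} (h : i < k) :
    N X M o E i (Bs X M o E i) ⊆ Bs X M o E k := by
  rw [Bs_eq X M o E k]
  exact fun a ha => mem_biUnion h (Or.inr ha)

end gen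

theorem TT_mono {I : Type v} [LinearOrder I] {Y : Type w} [TopologicalSpace Y] (F : I → Set Y) :
    Monotone (TT F) := by
  intro i j hij
  exact closure_mono (biUnion_subset_biUnion_left fun k hk => lt_of_lt_of_le hk hij)

end CHAM

open CHAM in
theorem specCHA : SpecCHA.{u, v, w} := by
  classical
  intro I _ _ _ hI A Z _ o F M hmono ho hcov hMod X hX E
  have hMc : ∀ a i, (M a i).Countable := fun a => (hMod a).cnt
  have hMm : ∀ a, Monotone (M a) := fun a => (hMod a).mono
  set B : I → Set A := Bs X M o E with hB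
  have hBm : Monotone B := Bs_mono X M o E
  have hBc : ∀ i, (B i).Countable := Bs_countable X M o E hI hMc hX
  set B' : I → Set A := fun j => ⋃ k, ⋃ (_ : k < j), B k with hB'
  have hB'm : Monotone B' := fun i j hij =>
    biUnion_subset_biUnion_left fun k hk => lt_of_lt_of_le hk hij
  have memB' : ∀ {j : I} {a : A}, a ∈ B' j ↔ ∃ k < j, a ∈ B k := by
    intro j a
    simp [hB']
  set K : I → Set X := fun j => {y | ∀ a, y.1 a ∈ TT (F a) j ∧ (a ∉ B' j → y.1 a = o a)} with hK
  set M' : I → Set (Set X) := fun i => Mc X M i (B i) with hM'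
  have hconst : ∀ (j j' : I) (a : A) (b : Set (Z a)), a ∉ B' j →
      ∃ l' ∈ M' j', ∀ y ∈ K j, (y ∈ {x : X | x.1 a ∈ b} ↔ y ∈ l') := by
    intro j j' a b ha
    by_cases hb : o a ∈ b
    · refine ⟨univ, Or.inl (Or.inr rfl), fun y hy => ?_⟩
      have := (hy a).2 ha
      simp [this, hb]
    · refine ⟨∅, Or.inl (Or.inl rfl), fun y hy => ?_⟩
      have := (hy a).2 ha
      simp [this, hb]
  refine ⟨K, M', ⟨?_, ?_, ?_, ?_, ?_⟩, ?_⟩
  · intro i j hij y hy a
    exact ⟨TT_mono (F a) hij (hy a).1, fun ha => (hy a).2 fun h => ha (hB'm hij h)⟩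
  · intro i j hij
    exact Mc_mono X M hMm hij (hBm hij)
  · intro i
    exact Mc_countable X M hMc i (hBc i)
  · intro i l hl
    rcases hl with (rfl | rfl) | hl
    · exact isClopen_empty
    · exact isClopen_univ
    · simp only [mem_iUnion, mem_image] at hl
      obtain ⟨a, _, c, hc, rfl⟩ := hl
      exact ((hMod a).clo i c hc).preimage ((continuous_apply a).comp continuous_subtype_val)
  · intro Δ hΔ
    have h1 : ∀ k, Lg {i : I | ∀ a ∈ B k, i ∈ {i : I | ∀ b : Set (Z a), IsClopen b →
        ∃ j ∈ Δ, j ≤ i ∧ ∃ j' < j, ∃ c ∈ M a j', ∀ z ∈ TT (F a) j, (z ∈ b ↔ z ∈ c)}} :=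
      fun k => Lg.biInter hI (hBc k) fun a _ => (hMod a).one Δ hΔ
    have h2 := Lg.diag hI h1
    refine ((hΔ.inter h2).inter Lg.nonmin).mono ?_
    rintro i ⟨⟨hiΔ, hi⟩, ⟨i₀, hi₀⟩⟩ l ⟨a, b, hb, rfl⟩
    by_cases ha : a ∈ B' i
    · obtain ⟨k, hk, hak⟩ := memB'.1 ha
      obtain ⟨j, hjΔ, hji, j', hj', c, hc, hag⟩ := hi k hk a hak b hb
      by_cases ha' : a ∈ B' j
      · obtain ⟨k', hk', hak'⟩ := memB'.1 ha'
        refine ⟨j, hjΔ, hji, max k' j', max_lt hk' hj', {x : X | x.1 a ∈ c}, Or.inr ?_, ?_⟩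
        · exact mem_biUnion (hBm (le_max_left _ _) hak') ⟨c, hMm a (le_max_right _ _) hc, rfl⟩
        · exact fun y hy => hag _ (hy a).1
      · exact ⟨j, hjΔ, hji, j', hj', hconst j j' a b ha'⟩
    · exact ⟨i, hiΔ, le_rfl, i₀, hi₀, hconst i i₀ a b ha⟩
  · intro s i hs
    choose idx hidx using hcov
    have hC : (insert i (⋃ y ∈ E s, (fun a => idx a (y.1 a)) '' {a | y.1 a ≠ o a})).Countable :=
      ((E s).countable_toSet.biUnion fun y _ => (hX y.1 y.2).image _).insert i
    obtain ⟨k, hk⟩ := bound hI _ hC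
    obtain ⟨i', hi'⟩ := exists_gt' hI k
    have hik : i < k := hk i (mem_insert _ _)
    refine ⟨i', fun y hy a => ⟨subset_closure ?_, fun ha => ?_⟩⟩
    · by_cases hya : y.1 a = o a
      · rw [hya]
        exact mem_biUnion hi' (ho a k)
      · have h3 : idx a (y.1 a) < k := hk _ (mem_insert_of_mem _ (mem_biUnion hy ⟨a, hya, rfl⟩))
        exact mem_biUnion (h3.trans hi') (hidx a (y.1 a))
    · by_contra hya
      exact ha (memB'.2 ⟨k, hi', N_sub X M o E hik (mem_biUnion hs (mem_biUnion hy hya))⟩)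

end MPd1327c.ZH
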