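import Mathlib

/-!
# MP_d1327c_gt, spaces of countable metrizable height: definitions and the club filter

`I` is a well-ordered uncountable set with countable initial segments, that is, `ω₁`.
-/

set_option autoImplicit false

open Set Topology TopologicalSpace

namespace MPd1327c.ZH

universe u v w

/-! ## Large sets (sets which contain a club) -/

section club

variable {I : Type v} [LinearOrder I]

/-- a set of `δ` is large if it contains all `δ`, not the least element, which are closed under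
some function `h` -/
def Lg (P : Set I) : Prop := ∃ h : I → I, ∀ δ, (Iio δ).Nonempty → (∀ i < δ, h i < δ) → δ ∈ P

/-- countable sets are bounded -/
theorem bound [Uncountable I] (hI : ∀ i : I, (Iio i).Countable) (C : Set I) (hC : C.Countable) :
    ∃ b, ∀ c ∈ C, c < b := by
  by_contra hcon
  push Not at hcon
  have h1 : (univ : Set I) ⊆ ⋃ c ∈ C, (Iio c ∪ {c}) := by
    intro i _
    obtain ⟨c, hc, hic⟩ := hcon i
    refine mem_biUnion hc ?_
    rcases hic.lt_or_eq with h | h
    · exact Or.inl h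
    · exact Or.inr h
  exact not_countable_univ ((hC.biUnion fun c _ => (hI c).union (countable_singleton c)).mono h1)

theorem exists_gt' [Uncountable I] (hI : ∀ i : I, (Iio i).Countable) (i : I) : ∃ j, i < j := by
  obtain ⟨b, hb⟩ := bound hI {i} (countable_singleton i)
  exact ⟨b, hb i rfl⟩

theorem Iic_countable (hI : ∀ i : I, (Iio i).Countable) (i : I) : (Iic i).Countable := by
  rw [← Iio_union_right]
  exact (hI i).union (countable_singleton i)

theorem Lg.mono {P Q : Set I} (h : Lg P) (hPQ : P ⊆ Q) : Lg Q := by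
  obtain ⟨f, hf⟩ := h
  exact ⟨f, fun δ h1 h2 => hPQ (hf δ h1 h2)⟩

theorem Lg.inter [Uncountable I] {P Q : Set I} (h : Lg P) (h' : Lg Q) : Lg (P ∩ Q) := by
  obtain ⟨f, hf⟩ := h
  obtain ⟨g, hg⟩ := h'
  exact ⟨fun i => max (f i) (g i), fun δ h1 h2 =>
    ⟨hf δ h1 fun i hi => (le_max_left _ _).trans_lt (h2 i hi),
      hg δ h1 fun i hi => (le_max_right _ _).trans_lt (h2 i hi)⟩⟩

theorem Lg.nonmin [Uncountable I] : Lg {δ : I | (Iio δ).Nonempty} :=
  ⟨fun i => i, fun _ h _ => h⟩

/-- diagonal intersections -/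
theorem Lg.diag [Uncountable I] (hI : ∀ i : I, (Iio i).Countable) {P : I → Set I}
    (h : ∀ i, Lg (P i)) : Lg {δ | ∀ i < δ, δ ∈ P i} := by
  choose f hf using h
  have h1 : ∀ i, ∃ b, ∀ j ≤ i, ∀ k ≤ i, f j k < b := by
    intro i
    obtain ⟨b, hb⟩ := bound hI (image2 f (Iic i) (Iic i))
      ((Iic_countable hI i).image2 (Iic_countable hI i) f)
    exact ⟨b, fun j hj k hk => hb _ ⟨j, hj, k, hk, rfl⟩⟩
  choose g hg using h1
  refine ⟨g, fun δ h0 hδ i hi => hf i δ h0 fun k hk => ?_⟩
  exact (hg (max i k) i (le_max_left _ _) k (le_max_right _ _)).trans (hδ _ (max_lt hi hk))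

/-- countable intersections -/
theorem Lg.iInter [Uncountable I] (hI : ∀ i : I, (Iio i).Countable) {ι : Type*} [Countable ι]
    {P : ι → Set I} (h : ∀ n, Lg (P n)) : Lg {δ | ∀ n, δ ∈ P n} := by
  choose f hf using h
  have h1 : ∀ i, ∃ b, ∀ n, f n i < b := by
    intro i
    obtain ⟨b, hb⟩ := bound hI (range fun n => f n i) (countable_range _)
    exact ⟨b, fun n => hb _ ⟨n, rfl⟩⟩
  choose g hg using h1
  exact ⟨g, fun δ h0 hδ n => hf n δ h0 fun k hk => (hg k n).trans (hδ k hk)⟩

theorem Lg.biInter [Uncountable I] (hI : ∀ i : I, (Iio i).Countable) {ι : Type*} {s : Set ι}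
    (hs : s.Countable) {P : ι → Set I} (h : ∀ n ∈ s, Lg (P n)) : Lg {δ | ∀ n ∈ s, δ ∈ P n} := by
  have : Countable s := hs.to_subtype
  refine (Lg.iInter hI (P := fun n : s => P n) fun n => h n n.2).mono ?_
  exact fun δ hδ n hn => hδ ⟨n, hn⟩

theorem Lg.tail [Uncountable I] (i₀ : I) : Lg {δ | i₀ < δ} :=
  ⟨fun _ => i₀, fun _ ⟨k, hk⟩ h => h k hk⟩

/-- large sets are unbounded -/
theorem Lg.exists_gt [WellFoundedLT I] [Uncountable I] (hI : ∀ i : I, (Iio i).Countable)
    {P : Set I} (h : Lg P) (i₀ : I) : ∃ δ ∈ P, i₀ < δ := by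
  classical
  obtain ⟨f, hf⟩ := h
  have h1 : ∀ i, ∃ b, i < b ∧ ∀ k ≤ i, f k < b := by
    intro i
    obtain ⟨b, hb⟩ := bound hI (insert i (f '' Iic i))
      (((Iic_countable hI i).image f).insert i)
    exact ⟨b, hb _ (mem_insert _ _), fun k hk => hb _ (mem_insert_of_mem _ ⟨k, hk, rfl⟩)⟩
  choose g hg1 hg2 using h1
  let s : ℕ → I := fun n => g^[n] i₀
  have hs : ∀ n, s (n + 1) = g (s n) := fun n => Function.iterate_succ_apply' g n i₀
  obtain ⟨b, hb⟩ := bound hI (range s) (countable_range _)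
  obtain ⟨δ, hδ, hmin⟩ := (wellFounded_lt (α := I)).has_min {b | ∀ n, s n < b}
    ⟨b, fun n => hb _ ⟨n, rfl⟩⟩
  refine ⟨δ, hf δ ⟨s 0, hδ 0⟩ fun i hi => ?_, hδ 0⟩
  obtain ⟨n, hn⟩ : ∃ n, i ≤ s n := by
    by_contra hcon
    push Not at hcon
    exact hmin i hcon hi
  exact (hg2 (s n) i hn).trans ((hs n) ▸ hδ (n + 1))

/-- the limit points of a large set -/
theorem Lg.lim [WellFoundedLT I] [Uncountable I] (hI : ∀ i : I, (Iio i).Countable)
    {P : Set I} (h : Lg P) : Lg {δ | ∀ i < δ, ∃ j ∈ P, i < j ∧ j < δ} := by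
  choose g hg1 hg2 using fun i => h.exists_gt hI i
  exact ⟨g, fun δ _ hδ i hi => ⟨g i, hg1 i, hg2 i, hδ i hi⟩⟩

end club

/-! ## Levels and pieces of a space -/

section levels

variable {I : Type v} [LinearOrder I] {Z : Type w} [TopologicalSpace Z]

/-- `lev z` is the level of `z`; the sets `{z | α ≤ lev z}` are closed; the members of `pc α` are
disjoint, relatively open in `{z | α ≤ lev z}`, contained in some `F j`, and their union is the
set of the points of level `α` -/
structure Lev (F : I → Set Z) (lev : Z → I) (pc : I → Set (Set Z)) : Prop where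
  closed : ∀ α, IsClosed {z | α ≤ lev z}
  cover : ∀ z, ∃ P ∈ pc (lev z), z ∈ P
  sub : ∀ α, ∀ P ∈ pc α, ∀ z ∈ P, lev z = α
  disj : ∀ α, ∀ P ∈ pc α, ∀ Q ∈ pc α, ∀ z ∈ P, z ∈ Q → P = Q
  opn : ∀ α, ∀ P ∈ pc α, ∃ U, IsOpen U ∧ ∀ z, α ≤ lev z → (z ∈ U ↔ z ∈ P)
  bdd : ∀ α, ∀ P ∈ pc α, ∃ j, P ⊆ F j

/-- countably many clopen sets `G j` for each `j`, enough to catch closed subsets of the pieces
which meet `F j` -/
structure Gen (F : I → Set Z) (lev : Z → I) (pc : I → Set (Set Z)) (G : I → Set (Set Z)) :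
    Prop where
  mono : Monotone G
  cnt : ∀ i, (G i).Countable
  clo : ∀ i, ∀ c ∈ G i, IsClopen c
  fit : ∀ α, ∀ P ∈ pc α, ∀ j, (P ∩ F j).Nonempty → ∀ C : Set Z, IsClosed C → C ⊆ P →
    ∀ b : Set Z, IsOpen b → C ⊆ b → ∃ c ∈ G j, C ⊆ c ∧ ∀ z ∈ c, α ≤ lev z → z ∈ b ∧ z ∈ P

/-- the closure of the union of the `F i`, `i < j` -/
def TT (F : I → Set Z) (j : I) : Set Z := closure (⋃ i, ⋃ (_ : i < j), F i)

/-- countable sets `M i` of clopen sets such that for every large `Δ`, for all `i` in a large set,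
every clopen set agrees on some `TT F j`, `j ≤ i`, `j ∈ Δ`, with a member of `M j'`, `j' < j` -/
structure Mod (F : I → Set Z) (M : I → Set (Set Z)) : Prop where
  mono : Monotone M
  cnt : ∀ i, (M i).Countable
  clo : ∀ i, ∀ c ∈ M i, IsClopen c
  one : ∀ Δ : Set I, Lg Δ → Lg {i | ∀ b : Set Z, IsClopen b → ∃ j ∈ Δ, j ≤ i ∧ ∃ j' < j,
    ∃ c ∈ M j', ∀ z ∈ TT F j, (z ∈ b ↔ z ∈ c)}

end levels

/-! ## Letters, words and the functions they code -/

section words

/-- a letter: a finite list of sets and a rational valued function of the pattern of membership -/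
abbrev W (Y : Type u) := List (Set Y) × (List Bool →₀ ℚ)

open Classical in
/-- the step function of a letter -/
noncomputable def val {Y : Type u} (w : W Y) (y : Y) : ℝ :=
  ((w.2 (w.1.map fun l => decide (y ∈ l)) : ℚ) : ℝ)

/-- the identity for `n = 0`, the projection onto `[-1, 1]` for `n > 0` -/
noncomputable def cl (n : ℕ) (x : ℝ) : ℝ := if n = 0 then x else max (-1) (min 1 x)

/-- the function of a finite word, written from right to left -/
noncomputable def dec {Y : Type u} : List (W Y) → Y → ℝ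
  | [], _ => 0
  | w :: s, y => dec s y + cl s.length (val w y) / 2 ^ s.length

/-- all sets in the letter are in `M` -/
def Over {Y : Type u} (M : Set (Set Y)) (w : W Y) : Prop := ∀ l ∈ w.1, l ∈ M

/-- all sets in the word are in `M` -/
def OverL {Y : Type u} (M : Set (Set Y)) (s : List (W Y)) : Prop := ∀ w ∈ s, Over M w

/-- increasing subsets `K i` of `Y` and increasing countable sets `M i` of clopen sets such that for
every large `Δ`, for all `i` in a large set, every member of `𝔸` agrees on some `K j`, `j ≤ i`,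
`j ∈ Δ`, with a member of `M j'`, `j' < j` -/
structure Sys {I : Type v} [LinearOrder I] {Y : Type u} [TopologicalSpace Y] (𝔸 : Set (Set Y))
    (K : I → Set Y) (M : I → Set (Set Y)) : Prop where
  monoK : Monotone K
  monoM : Monotone M
  cnt : ∀ i, (M i).Countable
  clo : ∀ i, ∀ l ∈ M i, IsClopen l
  one : ∀ Δ : Set I, Lg Δ → Lg {i | ∀ l ∈ 𝔸, ∃ j ∈ Δ, j ≤ i ∧ ∃ j' < j,
    ∃ l' ∈ M j', ∀ y ∈ K j, (y ∈ l ↔ y ∈ l')}

end words

end MPd1327c.ZH
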