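import Pool.Agent.Lib.MP_d1327c_gt.ZH.Spec

/-!
# MP_d1327c_gt, module GEN (helper10): countably many clopen sets which catch the closed subsets of
the pieces
-/

set_option autoImplicit false

open Set Topology TopologicalSpace

namespace MPd1327c.ZH

universe u v w

namespace GENM

variable {I : Type v} [LinearOrder I] {Z : Type w} [TopologicalSpace Z]

/-- the levels are bounded -/
theorem exists_bound [Uncountable I] (hI : ∀ i : I, (Iio i).Countable) [CompactSpace Z]
    {lev : Z → I} (hcl : ∀ α, IsClosed {z | α ≤ lev z}) : ∃ θ, ∀ z, lev z < θ := by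
  by_contra hcon
  push Not at hcon
  have hne : Nonempty I := by
    by_contra h
    rw [not_nonempty_iff] at h
    exact not_countable (α := I) inferInstance
  have h := IsCompact.nonempty_iInter_of_directed_nonempty_isCompact_isClosed
    (fun α : I => {z | α ≤ lev z})
    (by
      intro α β
      refine ⟨max α β, ?_, ?_⟩
      · intro z hz
        exact (le_max_left α β).trans hz
      · intro z hz
        exact (le_max_right α β).trans hz)
    (fun α => hcon α) (fun α => (hcl α).isCompact) hcl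
  obtain ⟨z, hz⟩ := h
  rw [mem_iInter] at hz
  obtain ⟨j, hj⟩ := exists_gt' hI (lev z)
  exact absurd (hz j) (not_le.2 hj)

/-- only countably many pieces of a level meet a second countable set -/
theorem countable_pieces {F : I → Set Z} {lev : Z → I} {pc : I → Set (Set Z)}
    (hF : ∀ i, SecondCountableTopology (F i)) (hL : Lev F lev pc) (α j : I) :
    {P | P ∈ pc α ∧ (P ∩ F j).Nonempty}.Countable := by
  have := hF j
  let D : Set Z := {z | z ∈ F j ∧ α ≤ lev z}
  have hD : D ⊆ F j := fun z hz => hz.1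
  have hsc : SecondCountableTopology D :=
    (IsEmbedding.inclusion hD).isInducing.secondCountableTopology
  refine PairwiseDisjoint.countable_of_isOpen (α := D) (s := fun P : Set Z => {x : D | x.1 ∈ P})
    ?_ ?_ ?_
  · intro P hP Q hQ hPQ
    rw [Function.onFun, disjoint_left]
    intro x hxP hxQ
    exact hPQ (hL.disj α P hP.1 Q hQ.1 x.1 hxP hxQ)
  · intro P hP
    obtain ⟨U, hU, hUP⟩ := hL.opn α P hP.1
    have h1 : {x : D | x.1 ∈ P} = Subtype.val ⁻¹' U := by
      ext x
      exact (hUP x.1 x.2.2).symm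
    rw [h1]
    exact hU.preimage continuous_subtype_val
  · intro P hP
    obtain ⟨z, hz, hzj⟩ := hP.2
    exact ⟨⟨z, hzj, (hL.sub α P hP.1 z hz).ge⟩, hz⟩

/-- the traces of the clopen sets which are contained in the piece `P` -/
def Tr (lev : Z → I) (α : I) (P : Set Z) : Set (Set Z) :=
  {e | e ⊆ P ∧ ∃ c, IsClopen c ∧ e = c ∩ {z | α ≤ lev z}}

theorem countable_Tr [CompactSpace Z] {F : I → Set Z} {lev : Z → I} {pc : I → Set (Set Z)}
    (hF : ∀ i, SecondCountableTopology (F i)) (hL : Lev F lev pc) {α : I} {P : Set Z}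
    (hP : P ∈ pc α) : (Tr lev α P).Countable := by
  obtain ⟨j, hj⟩ := hL.bdd α P hP
  have := hF j
  have hsc : SecondCountableTopology P :=
    (IsEmbedding.inclusion hj).isInducing.secondCountableTopology
  let b : countableBasis P → Set P := fun s => s.1
  have hb : IsTopologicalBasis (range b) := by
    rw [Subtype.range_coe_subtype]
    exact isBasis_countableBasis P
  have hcount : Countable (countableBasis P) := (countable_countableBasis P).to_subtype
  have key : ∀ e ∈ Tr lev α P, ∃ s : Set (countableBasis P), s.Finite ∧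
      (Subtype.val ⁻¹' e : Set P) = ⋃ i ∈ s, b i := by
    rintro e ⟨heP, c, hc, hec⟩
    refine eq_finite_iUnion_of_isTopologicalBasis_of_isCompact_open b hb _ ?_ ?_
    · have h1 : IsCompact e := by
        rw [hec]
        exact (hc.isClosed.inter (hL.closed α)).isCompact
      rw [IsInducing.subtypeVal.isCompact_iff]
      rw [Subtype.image_preimage_coe, inter_eq_right.2 heP]
      exact h1
    · have h1 : (Subtype.val ⁻¹' e : Set P) = Subtype.val ⁻¹' c := by
        ext x
        constructor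
        · intro hx
          have hx' : x.1 ∈ e := hx
          rw [hec] at hx'
          exact hx'.1
        · intro hx
          show x.1 ∈ e
          rw [hec]
          exact ⟨hx, (hL.sub α P hP x.1 x.2).ge⟩
      rw [h1]
      exact hc.isOpen.preimage continuous_subtype_val
  have hfin : {s : Set (countableBasis P) | s.Finite}.Countable :=
    (countable_ofPred_finite_subset (countable_univ (α := countableBasis P))).mono
      (fun (s : Set (countableBasis P)) (hs : s.Finite) =>
        (show s.Finite ∧ s ⊆ univ from ⟨hs, subset_univ s⟩))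
  refine (hfin.image fun s => (Subtype.val '' (⋃ i ∈ s, b i) : Set Z)).mono ?_
  intro e he
  obtain ⟨s, hs, hes⟩ := key e he
  refine ⟨s, hs, ?_⟩
  show Subtype.val '' (⋃ i ∈ s, b i) = e
  rw [← hes, Subtype.image_preimage_coe, inter_eq_right.2 he.1]

end GENM

open GENM in
open Classical in
theorem specGEN : SpecGEN.{v, w} := by
  intro I _ _ _ hI Z _ _ _ _ F lev pc hmono hF hL
  obtain ⟨θ, hθ⟩ := exists_bound hI hL.closed
  let cc : I → Set Z → Set Z := fun α e =>
    if h : ∃ c, IsClopen c ∧ e = c ∩ {z | α ≤ lev z} then h.choose else ∅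
  have hcc : ∀ α e, (∃ c, IsClopen c ∧ e = c ∩ {z | α ≤ lev z}) →
      IsClopen (cc α e) ∧ e = cc α e ∩ {z | α ≤ lev z} := by
    intro α e h
    show IsClopen (if h : ∃ c, IsClopen c ∧ e = c ∩ {z | α ≤ lev z} then h.choose else ∅) ∧
      e = (if h : ∃ c, IsClopen c ∧ e = c ∩ {z | α ≤ lev z} then h.choose else ∅) ∩
        {z | α ≤ lev z}
    rw [dif_pos h]
    exact h.choose_spec
  refine ⟨fun j => {c | ∃ α, α < θ ∧ ∃ P, (P ∈ pc α ∧ (P ∩ F j).Nonempty) ∧
    ∃ e, e ∈ Tr lev α P ∧ c = cc α e}, ?_, ?_, ?_, ?_⟩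
  · rintro i j hij c ⟨α, hα, P, ⟨hP, z, hzP, hz⟩, h⟩
    exact ⟨α, hα, P, ⟨hP, z, hzP, hmono hij hz⟩, h⟩
  · intro j
    have h1 : (⋃ α ∈ Iio θ, ⋃ P ∈ {P | P ∈ pc α ∧ (P ∩ F j).Nonempty},
        (cc α) '' (Tr lev α P)).Countable := by
      refine (hI θ).biUnion fun α _ => ?_
      refine (countable_pieces hF hL α j).biUnion fun P hP => ?_
      exact (countable_Tr hF hL hP.1).image _
    refine h1.mono ?_
    rintro c ⟨α, hα, P, hP, e, he, rfl⟩
    exact mem_biUnion (mem_Iio.2 hα) (mem_biUnion (s := {P | P ∈ pc α ∧ (P ∩ F j).Nonempty}) hP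
      (mem_image_of_mem _ he))
  · rintro j c ⟨α, hα, P, hP, e, he, rfl⟩
    exact (hcc α e he.2).1
  · intro α P hP j hne C hC hCP b hb hCb
    obtain ⟨U, hU, hUP⟩ := hL.opn α P hP
    have hlev : ∀ z ∈ P, α ≤ lev z := fun z hz => (hL.sub α P hP z hz).ge
    obtain ⟨c₀, hc₀, hCc, hcb⟩ := exists_clopen_of_closed_subset_open hC (hb.inter hU)
      (fun z hz => ⟨hCb hz, (hUP z (hlev z (hCP hz))).2 (hCP hz)⟩)
    have heP : c₀ ∩ {z | α ≤ lev z} ⊆ P := by
      rintro z ⟨hz, hz'⟩
      exact (hUP z hz').1 (hcb hz).2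
    have he : c₀ ∩ {z | α ≤ lev z} ∈ Tr lev α P := ⟨heP, c₀, hc₀, rfl⟩
    obtain ⟨h1, h2⟩ := hcc α _ he.2
    obtain ⟨x, hxP, hx⟩ := hne
    refine ⟨cc α (c₀ ∩ {z | α ≤ lev z}), ⟨α, ?_, P, ⟨hP, x, hxP, hx⟩, _, he, rfl⟩, ?_, ?_⟩
    · rw [← hL.sub α P hP x hxP]
      exact hθ x
    · intro z hz
      have h3 : z ∈ c₀ ∩ {z | α ≤ lev z} := ⟨hCc hz, hlev z (hCP hz)⟩
      rw [h2] at h3
      exact h3.1
    · intro z hz hz'
      have h3 : z ∈ c₀ ∩ {z | α ≤ lev z} := by
        rw [h2]
        exact ⟨hz, hz'⟩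
      exact ⟨(hcb h3.1).1, heP h3⟩

end MPd1327c.ZH
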