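import Pool.Agent.Lib.MP_d1327c_gt.ZH.Spec

/-!
# LIM: continuity of the functions of letters and of the limits of words
-/

set_option autoImplicit false

open Set Topology TopologicalSpace

namespace MPd1327c.ZH

universe u

namespace LIMM

open Classical in
lemma loc_mem {Y : Type u} [TopologicalSpace Y] {l : Set Y} (hl : IsClopen l) :
    IsLocallyConstant (fun y : Y => decide (y ∈ l)) := by
  rw [IsLocallyConstant.iff_exists_open]
  intro y
  by_cases hy : y ∈ l
  · exact ⟨l, hl.isOpen, hy, fun y' hy' => by simp [hy, hy']⟩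
  · refine ⟨lᶜ, hl.compl.isOpen, hy, fun y' hy' => ?_⟩
    have : y' ∉ l := hy'
    simp [hy, this]

open Classical in
lemma loc_list {Y : Type u} [TopologicalSpace Y] (L : List (Set Y)) (hL : ∀ l ∈ L, IsClopen l) :
    IsLocallyConstant (fun y : Y => L.map fun l => decide (y ∈ l)) := by
  induction L with
  | nil => exact IsLocallyConstant.const []
  | cons l L ih =>
    have h1 := loc_mem (hL l (by simp))
    have h2 := ih (fun l' hl' => hL l' (by simp [hl']))
    exact h1.comp₂ h2 (fun b L' => b :: L')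

lemma continuous_val {Y : Type u} [TopologicalSpace Y] (w : W Y) (hw : ∀ l ∈ w.1, IsClopen l) :
    Continuous (val w) := by
  have h := (loc_list w.1 hw).comp (fun p => ((w.2 p : ℚ) : ℝ))
  exact h.continuous

lemma continuous_cl (n : ℕ) : Continuous (cl n) := by
  unfold cl
  by_cases h : n = 0
  · simp only [h, if_true]; exact continuous_id
  · simp only [h, if_false]
    exact continuous_const.max (continuous_const.min continuous_id)

lemma abs_cl_le (n : ℕ) (x : ℝ) : |cl (n + 1) x| ≤ 1 := by
  unfold cl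
  rw [if_neg (Nat.succ_ne_zero n), abs_le]
  exact ⟨le_max_left _ _, max_le (by norm_num) (min_le_left _ _)⟩

lemma geom (m : ℕ) : HasSum (fun i : ℕ => (1 / 2 : ℝ) ^ (i + m + 1)) (2 / 2 ^ (m + 1)) := by
  have h := hasSum_geometric_two.mul_left ((1 / 2 : ℝ) ^ (m + 1))
  have e1 : (fun i : ℕ => (1 / 2 : ℝ) ^ (m + 1) * (1 / 2) ^ i) =
      fun i : ℕ => (1 / 2 : ℝ) ^ (i + m + 1) := by
    funext i
    rw [← pow_add]; congr 1; omega
  have e2 : (1 / 2 : ℝ) ^ (m + 1) * 2 = 2 / 2 ^ (m + 1) := by
    rw [one_div, inv_pow]; ring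
  rw [e1, e2] at h
  exact h

end LIMM

open LIMM in
theorem specLIM : SpecLIM.{u} := by
  refine ⟨fun Y _ w hw => continuous_val w hw, continuous_cl, ?_⟩
  intro Y _ s w hs0 hs hw
  have hlen : ∀ n, (s n).length = n := by
    intro n
    induction n with
    | zero => rw [hs0]; rfl
    | succ n ih => rw [hs, List.length_cons, ih]
  set f : ℕ → Y → ℝ := fun k y => cl (k + 1) (val (w (k + 1)) y) / 2 ^ (k + 1) with hf
  have hdec : ∀ m, ∀ y, dec (s (m + 1)) y = cl 0 (val (w 0) y) + ∑ k ∈ Finset.range m, f k y := by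
    intro m y
    induction m with
    | zero =>
      rw [hs, hs0]
      simp [dec]
    | succ m ih =>
      rw [hs, Finset.sum_range_succ, ← add_assoc, ← ih]
      change dec (s (m + 1)) y + cl (s (m + 1)).length (val (w (m + 1)) y) / 2 ^ (s (m + 1)).length = _
      rw [hlen]
  have hb : ∀ k y, ‖f k y‖ ≤ (1 / 2 : ℝ) ^ (k + 0 + 1) := by
    intro k y
    rw [hf]
    simp only
    rw [norm_div, Real.norm_eq_abs, Real.norm_eq_abs, abs_of_pos (by positivity : (0:ℝ) < 2 ^ (k + 1)),
      one_div, inv_pow, ← one_div, add_zero]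
    exact div_le_div_of_nonneg_right (abs_cl_le k _) (by positivity)
  have hsum : ∀ y, Summable (fun k => f k y) := fun y =>
    Summable.of_norm_bounded (geom 0).summable (fun k => hb k y)
  have hcont : Continuous (fun y => ∑' k, f k y) := by
    apply continuous_tsum (fun k => ?_) (geom 0).summable (fun k y => hb k y)
    exact ((continuous_cl (k + 1)).comp (continuous_val (w (k + 1)) (hw (k + 1)))).div_const _
  refine ⟨fun y => cl 0 (val (w 0) y) + ∑' k, f k y,
    ((continuous_cl 0).comp (continuous_val (w 0) (hw 0))).add hcont, ?_⟩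
  intro n hn y
  obtain ⟨m, rfl⟩ : ∃ m, n = m + 1 := ⟨n - 1, by omega⟩
  rw [hdec m y]
  have h1 := (hsum y).sum_add_tsum_nat_add m
  have h2 : cl 0 (val (w 0) y) + ∑' k, f k y - (cl 0 (val (w 0) y) + ∑ k ∈ Finset.range m, f k y)
      = ∑' k, f (k + m) y := by
    rw [← h1]; ring
  rw [h2, ← Real.norm_eq_abs]
  apply tsum_of_norm_bounded (geom m)
  intro k
  have h3 := hb (k + m) y
  rwa [add_zero] at h3

end MPd1327c.ZH
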