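import Pool.Agent.Lib.MP_d1327c_gt.ZH.Spec

/-!
# Module PCS: the levels split into pieces
-/

set_option autoImplicit false

open Set Topology TopologicalSpace

namespace MPd1327c.ZH

universe u v w

namespace PCSM

/-- a locally compact metrizable space is a disjoint union of open separable pieces -/
lemma decomp {D : Type w} [TopologicalSpace D] [MetrizableSpace D] [LocallyCompactSpace D] :
    ∃ q : D → Set D, (∀ k, IsOpen (q k)) ∧ (∀ x, ∃ k, x ∈ q k) ∧
      (∀ k l x, x ∈ q k → x ∈ q l → q k = q l) ∧ ∀ k, IsSeparable (q k) := by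
  have : ParacompactSpace D := by
    let := metrizableSpaceMetric D
    infer_instance
  choose s hs1 hs2 using fun x : D => exists_compact_mem_nhds x
  obtain ⟨v, hv1, hv2, hv3, hv4⟩ := precise_refinement (fun x => interior (s x))
    (fun x => isOpen_interior) (by
      rw [eq_univ_iff_forall]
      exact fun x => mem_iUnion.2 ⟨x, mem_interior_iff_mem_nhds.2 (hs2 x)⟩)
  have hvs : ∀ x, v x ⊆ s x := fun x => (hv4 x).trans interior_subset
  let R : D → D → Prop := fun k l => (v k ∩ v l).Nonempty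
  have hsymm : ∀ k l, R k l → R l k := fun k l h => by
    change (v l ∩ v k).Nonempty
    rw [inter_comm]; exact h
  have hfin : ∀ k, {l | R k l}.Finite := by
    intro k
    refine (hv3.finite_nonempty_inter_compact (hs1 k)).subset ?_
    rintro l ⟨x, hx1, hx2⟩
    exact ⟨x, hx2, hvs k hx1⟩
  let cls : D → Set D := fun k => {l | Relation.ReflTransGen R k l}
  have hcnt : ∀ k, (cls k).Countable := by
    intro k
    let S : ℕ → Set D := fun n => Nat.rec {k} (fun _ A => ⋃ l ∈ A, {m | R l m}) n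
    have hS0 : S 0 = {k} := rfl
    have hS1 : ∀ n, S (n + 1) = ⋃ l ∈ S n, {m | R l m} := fun n => rfl
    have hSc : ∀ n, (S n).Countable := by
      intro n
      induction n with
      | zero => rw [hS0]; exact countable_singleton k
      | succ n ih => rw [hS1]; exact ih.biUnion fun l _ => (hfin l).countable
    refine (countable_iUnion hSc).mono ?_
    intro l hl
    change Relation.ReflTransGen R k l at hl
    induction hl with
    | refl => exact mem_iUnion.2 ⟨0, by rw [hS0]; rfl⟩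
    | tail h1 h2 ih =>
      obtain ⟨n, hn⟩ := mem_iUnion.1 ih
      refine mem_iUnion.2 ⟨n + 1, ?_⟩
      rw [hS1]
      exact mem_biUnion hn h2
  have hsymm' : ∀ k l, Relation.ReflTransGen R k l → Relation.ReflTransGen R l k := by
    intro k l h
    induction h with
    | refl => exact Relation.ReflTransGen.refl
    | tail _ h2 ih => exact Relation.ReflTransGen.head (hsymm _ _ h2) ih
  refine ⟨fun k => ⋃ l ∈ cls k, v l, fun k => isOpen_biUnion fun l _ => hv1 l, fun x => ?_, ?_, ?_⟩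
  · obtain ⟨k, hk⟩ := mem_iUnion.1 ((eq_univ_iff_forall.1 hv2) x)
    exact ⟨k, mem_biUnion (Relation.ReflTransGen.refl : Relation.ReflTransGen R k k) hk⟩
  · intro k l x hk hl
    obtain ⟨m, hm, hxm⟩ := mem_iUnion₂.1 hk
    obtain ⟨m', hm', hxm'⟩ := mem_iUnion₂.1 hl
    have h1 : Relation.ReflTransGen R k l :=
      ((show Relation.ReflTransGen R k m from hm).tail ⟨x, hxm, hxm'⟩).trans (hsymm' l m' hm')
    have h2 : cls k = cls l := by
      ext n
      exact ⟨fun h => (hsymm' k l h1).trans h, fun h => h1.trans h⟩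
    simp only [h2]
  · intro k
    have : Countable (cls k) := (hcnt k).to_subtype
    change IsSeparable (⋃ l ∈ cls k, v l)
    rw [biUnion_eq_iUnion]
    exact IsSeparable.iUnion fun l => (hs1 l).isSeparable.mono (hvs l)

end PCSM

open PCSM in
theorem specPCS : SpecPCS.{v, w} := by
  intro I _ _ _ hI K _ _ _ F lev hFc hFm hFx hlev hmet
  have key : ∀ α : I, ∃ pc : Set (Set K), (∀ z, lev z = α → ∃ P ∈ pc, z ∈ P) ∧
      (∀ P ∈ pc, ∀ z ∈ P, lev z = α) ∧
      (∀ P ∈ pc, ∀ Q ∈ pc, ∀ z ∈ P, z ∈ Q → P = Q) ∧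
      (∀ P ∈ pc, ∃ U, IsOpen U ∧ ∀ z, α ≤ lev z → (z ∈ U ↔ z ∈ P)) ∧
      (∀ P ∈ pc, ∃ j, P ⊆ F j) := by
    intro α
    obtain ⟨s, hs, hmin⟩ := (wellFounded_lt (α := I)).has_min {b | α < b} (exists_gt' hI α)
    have hs' : ∀ b, α < b → s ≤ b := fun b hb => not_lt.1 (hmin b hb)
    have hDeq : {x : K | lev x = α} = {x | α ≤ lev x} ∩ {x | s ≤ lev x}ᶜ := by
      ext x
      simp only [mem_inter_iff, mem_compl_iff, Set.mem_ofPred_eq]
      constructor
      · rintro h
        exact ⟨h.ge, fun h' => absurd (hs.trans_le h') (by rw [h]; exact lt_irrefl _)⟩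
      · rintro ⟨h1, h2⟩
        rcases h1.lt_or_eq with h | h
        · exact absurd (hs' _ h) h2
        · exact h.symm
    have hlc : IsLocallyClosed {x : K | lev x = α} := by
      rw [hDeq]
      exact (hlev α).isLocallyClosed.inter (hlev s).isOpen_compl.isLocallyClosed
    have : LocallyCompactSpace {x // lev x = α} := hlc.locallyCompactSpace
    have := hmet α
    obtain ⟨q, hq1, hq2, hq3, hq4⟩ := decomp (D := {x // lev x = α})
    refine ⟨range fun k => Subtype.val '' q k, ?_, ?_, ?_, ?_, ?_⟩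
    · intro z hz
      obtain ⟨k, hk⟩ := hq2 ⟨z, hz⟩
      exact ⟨_, ⟨k, rfl⟩, ⟨z, hz⟩, hk, rfl⟩
    · rintro _ ⟨k, rfl⟩ _ ⟨⟨z, hz⟩, _, rfl⟩
      exact hz
    · rintro _ ⟨k, rfl⟩ _ ⟨l, rfl⟩ _ ⟨⟨z, hz⟩, h1, rfl⟩ ⟨⟨z', hz'⟩, h2, h3⟩
      have h4 : (⟨z', hz'⟩ : {x // lev x = α}) = ⟨z, hz⟩ := Subtype.ext h3
      rw [h4] at h2
      exact congrArg (fun A => Subtype.val '' A) (hq3 k l _ h1 h2)
    · rintro _ ⟨k, rfl⟩
      obtain ⟨U, hU, hUq⟩ := isOpen_induced_iff.1 (hq1 k)
      refine ⟨U ∩ {x | s ≤ lev x}ᶜ, hU.inter (hlev s).isOpen_compl, fun z hz => ?_⟩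
      constructor
      · rintro ⟨h1, h2⟩
        have h3 : z ∈ {x : K | lev x = α} := by rw [hDeq]; exact ⟨hz, h2⟩
        refine ⟨⟨z, h3⟩, ?_, rfl⟩
        rw [← hUq]; exact h1
      · rintro ⟨⟨z', hz'⟩, h1, rfl⟩
        rw [← hUq] at h1
        refine ⟨h1, ?_⟩
        have h3 : z' ∈ {x : K | lev x = α} := hz'
        rw [hDeq] at h3
        exact h3.2
    · rintro _ ⟨k, rfl⟩
      obtain ⟨c, hc, hqc⟩ := hq4 k
      choose g hg using hFx
      obtain ⟨b, hb⟩ := bound hI ((fun x : {x // lev x = α} => g x) '' c) (hc.image _)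
      refine ⟨b, ?_⟩
      rintro _ ⟨z, hz, rfl⟩
      have hcl : IsClosed (Subtype.val ⁻¹' F b : Set {x // lev x = α}) :=
        (hFc b).preimage continuous_subtype_val
      have hsub : c ⊆ (Subtype.val ⁻¹' F b : Set {x // lev x = α}) := fun x hx =>
        hFm (hb _ ⟨x, hx, rfl⟩).le (hg x)
      exact closure_minimal hsub hcl (hqc hz)
  choose pc h1 h2 h3 h4 h5 using key
  exact ⟨pc, hlev, fun z => h1 (lev z) z rfl, h2, h3, h4, h5⟩

end MPd1327c.ZH
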