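import Pool.Agent.Lib.MP_d1327c_gt.ZH.Spec

/-!
# MP_d1327c_gt, module SLC: the correction along the levels
-/

set_option autoImplicit false

open Set Topology TopologicalSpace

namespace MPd1327c.ZH

universe u v w

namespace SLCM

section

variable {I : Type v} [LinearOrder I] {Z : Type w} [TopologicalSpace Z]

/-- the finite symmetric differences of members of `G i` -/
def MM (G : I → Set (Set Z)) (i : I) : Set (Set Z) :=
  Set.range fun l : List (G i) => l.foldr (fun g c => symmDiff (g : Set Z) c) ∅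

theorem MM_empty (G : I → Set (Set Z)) (i : I) : (∅ : Set Z) ∈ MM G i := ⟨[], rfl⟩

theorem MM_add {G : I → Set (Set Z)} {i : I} {g c : Set Z} (hg : g ∈ G i) (hc : c ∈ MM G i) :
    symmDiff g c ∈ MM G i := by
  obtain ⟨l, rfl⟩ := hc
  exact ⟨⟨g, hg⟩ :: l, rfl⟩

theorem MM_mono {G : I → Set (Set Z)} (hG : Monotone G) : Monotone (MM G) := by
  rintro i j hij c ⟨l, rfl⟩
  show l.foldr (fun g c => symmDiff (g : Set Z) c) ∅ ∈ MM G j
  induction l with
  | nil => exact MM_empty G j
  | cons a l ih => exact MM_add (hG hij a.2) ih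

theorem MM_cnt {G : I → Set (Set Z)} (hG : ∀ i, (G i).Countable) (i : I) : (MM G i).Countable := by
  have : Countable (G i) := (hG i).to_subtype
  exact countable_range _

theorem clopen_symmDiff {s t : Set Z} (hs : IsClopen s) (ht : IsClopen t) :
    IsClopen (symmDiff s t) := by
  rw [symmDiff_def]
  exact (hs.diff ht).union (ht.diff hs)

theorem MM_clo {G : I → Set (Set Z)} (hG : ∀ i, ∀ c ∈ G i, IsClopen c) (i : I) :
    ∀ c ∈ MM G i, IsClopen c := by
  rintro c ⟨l, rfl⟩
  show IsClopen (l.foldr (fun g c => symmDiff (g : Set Z) c) ∅)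
  induction l with
  | nil => exact isClopen_empty
  | cons a l ih => exact clopen_symmDiff (hG i _ a.2) ih

theorem mem_symmDiff' {s t : Set Z} {z : Z} : z ∈ symmDiff s t ↔ ¬ (z ∈ s ↔ z ∈ t) := by
  rw [Set.mem_symmDiff]
  tauto

theorem TT_mono (F : I → Set Z) {i j : I} (h : i ≤ j) : TT F i ⊆ TT F j := by
  unfold TT
  apply closure_mono
  intro z hz
  simp only [mem_iUnion] at hz ⊢
  obtain ⟨k, hk, hz⟩ := hz
  exact ⟨k, hk.trans_le h, hz⟩

theorem TT_sub {F : I → Set Z} (hF : ∀ i, IsClosed (F i)) (hm : Monotone F) (j : I) :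
    TT F j ⊆ F j := by
  unfold TT
  apply closure_minimal _ (hF j)
  intro z hz
  simp only [mem_iUnion] at hz
  obtain ⟨k, hk, hz⟩ := hz
  exact hm hk.le hz

end

section

variable {I : Type v} [LinearOrder I] [WellFoundedLT I]

/-- the iterated limit points of `Δ` -/
noncomputable def LL (Δ : Set I) : I → Set I :=
  (wellFounded_lt (α := I)).fix fun β ih =>
    {i | i ∈ Δ ∧ ∀ γ (h : γ < β), ∀ i₀ < i, ∃ j ∈ ih γ h, i₀ < j ∧ j < i}

theorem LL_eq (Δ : Set I) (β : I) :
    LL Δ β = {i | i ∈ Δ ∧ ∀ γ < β, ∀ i₀ < i, ∃ j ∈ LL Δ γ, i₀ < j ∧ j < i} := by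
  conv_lhs => rw [LL, WellFounded.fix_eq]
  rfl

theorem LL_sub (Δ : Set I) (β : I) : LL Δ β ⊆ Δ := by
  rw [LL_eq]
  exact fun i hi => hi.1

theorem LL_anti (Δ : Set I) {γ β : I} (h : γ ≤ β) : LL Δ β ⊆ LL Δ γ := by
  intro i hi
  rw [LL_eq] at hi ⊢
  exact ⟨hi.1, fun γ' hγ' => hi.2 γ' (hγ'.trans_le h)⟩

theorem LL_large [Uncountable I] (hI : ∀ i : I, (Iio i).Countable) {Δ : Set I} (hΔ : Lg Δ)
    (β : I) : Lg (LL Δ β) := by
  induction β using WellFoundedLT.induction with
  | ind β ih =>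
    have h1 : Lg {δ : I | ∀ γ ∈ Iio β, δ ∈ {δ | ∀ i < δ, ∃ j ∈ LL Δ γ, i < j ∧ j < δ}} :=
      Lg.biInter hI (hI β) fun γ hγ => Lg.lim hI (ih γ hγ)
    refine (hΔ.inter h1).mono ?_
    intro i hi
    rw [LL_eq]
    exact ⟨hi.1, fun γ hγ => hi.2 γ hγ⟩

end

section

variable {I : Type v} [LinearOrder I] [WellFoundedLT I] [Uncountable I]
  {Z : Type w} [TopologicalSpace Z] [CompactSpace Z] {F : I → Set Z} {lev : Z → I}
  {pc G : I → Set (Set Z)}

/-- the levels are bounded -/
theorem theta (hI : ∀ i : I, (Iio i).Countable) (hL : Lev F lev pc) : ∃ θ, ∀ z, lev z < θ := by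
  by_contra hcon
  push Not at hcon
  have hne : Nonempty I := inferInstance
  obtain ⟨z, hz⟩ := IsCompact.nonempty_iInter_of_directed_nonempty_isCompact_isClosed
    (fun α : I => {z | α ≤ lev z})
    (fun α β => ⟨max α β, fun z hz => (le_max_left α β).trans hz,
      fun z hz => (le_max_right α β).trans hz⟩)
    hcon (fun α => (hL.closed α).isCompact) hL.closed
  obtain ⟨j, hj⟩ := exists_gt' hI (lev z)
  rw [mem_iInter] at hz
  exact absurd (hz j) (not_le.2 hj)

/-- the correction on finitely many pieces -/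
theorem corr (hL : Lev F lev pc) (hG : Gen F lev pc G) {β i i₀ : I} {b c C : Set Z} (hi₀ : i₀ < i)
    (hc : c ∈ MM G i₀) (hb : IsClopen b)
    (hC : C = {z | z ∈ TT F i ∧ β ≤ lev z ∧ z ∈ symmDiff b c})
    (hClo : IsClosed C) (hClev : ∀ z ∈ C, lev z = β) (Q : Finset (Set Z)) :
    (∀ P ∈ Q, P ∈ pc β) → ∃ i₁, i₀ ≤ i₁ ∧ i₁ < i ∧ ∃ c' ∈ MM G i₁, ∀ z, β ≤ lev z →
      (∀ P ∈ Q, z ∈ P → (∃ j < i, (P ∩ F j).Nonempty) → z ∈ TT F i → (z ∈ b ↔ z ∈ c')) ∧
      ((∀ P ∈ Q, z ∈ P → ¬ ∃ j < i, (P ∩ F j).Nonempty) → (z ∈ c' ↔ z ∈ c)) := by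
  classical
  induction Q using Finset.induction_on with
  | empty =>
    intro _
    exact ⟨i₀, le_rfl, hi₀, c, hc, fun z _ => ⟨fun P hP => absurd hP (Finset.notMem_empty P),
      fun _ => Iff.rfl⟩⟩
  | insert P Q hPQ ih =>
    intro hQ
    obtain ⟨i₁, h01, h1i, c', hc', h⟩ := ih fun P' hP' => hQ P' (Finset.mem_insert_of_mem hP')
    have hP : P ∈ pc β := hQ P (Finset.mem_insert_self _ _)
    by_cases hmeet : ∃ j < i, (P ∩ F j).Nonempty
    · obtain ⟨j, hji, hj⟩ := hmeet
      choose U hUo hU using hL.opn β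
      have hcl : IsClosed (C ∩ P) := by
        have e : C ∩ P = C ∩ (⋃ P' : pc β, ⋃ (_ : (P' : Set Z) ≠ P), U P' P'.2)ᶜ := by
          ext z
          constructor
          · rintro ⟨hz, hzP⟩
            refine ⟨hz, ?_⟩
            intro hcon
            simp only [mem_iUnion] at hcon
            obtain ⟨P', hne, hzU⟩ := hcon
            have hz' : z ∈ (P' : Set Z) := (hU P' P'.2 z (hClev z hz).ge).1 hzU
            exact hne (hL.disj β P' P'.2 P hP z hz' hzP)
          · rintro ⟨hz, hzn⟩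
            refine ⟨hz, ?_⟩
            obtain ⟨P', hP', hzP'⟩ := hL.cover z
            rw [hClev z hz] at hP'
            by_contra hcon
            apply hzn
            simp only [mem_iUnion]
            refine ⟨⟨P', hP'⟩, ?_, (hU P' hP' z (hClev z hz).ge).2 hzP'⟩
            rintro rfl
            exact hcon hzP'
        rw [e]
        refine hClo.inter (IsOpen.isClosed_compl ?_)
        exact isOpen_iUnion fun P' => isOpen_iUnion fun _ => hUo P' P'.2
      have hclob : IsClopen (symmDiff b c) := clopen_symmDiff hb (MM_clo hG.clo i₀ c hc)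
      obtain ⟨g, hg, hg1, hg2⟩ := hG.fit β P hP j hj (C ∩ P) hcl inter_subset_right
        (symmDiff b c) hclob.isOpen (by
          rintro z ⟨hz, _⟩
          rw [hC] at hz
          exact hz.2.2)
      refine ⟨max i₁ j, h01.trans (le_max_left _ _), max_lt h1i hji, symmDiff g c',
        MM_add (hG.mono (le_max_right _ _) hg) (MM_mono hG.mono (le_max_left _ _) hc'), ?_⟩
      intro z hz
      obtain ⟨ha, hbb⟩ := h z hz
      have hzg : z ∉ P → z ∉ g := fun h1 h2 => h1 (hg2 z h2 hz).2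
      constructor
      · intro P' hP' hzP' hmeet' hzT
        rcases Finset.mem_insert.1 hP' with rfl | hP'Q
        · have h1 : z ∈ c' ↔ z ∈ c := hbb fun P'' hP'' hzP'' _ => by
            have := hL.disj β P'' (hQ P'' (Finset.mem_insert_of_mem hP'')) P' hP z hzP'' hzP'
            rw [this] at hP''
            exact hPQ hP''
          have h2 : z ∈ g ↔ z ∈ symmDiff b c := by
            constructor
            · exact fun h3 => (hg2 z h3 hz).1
            · intro h3
              apply hg1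
              refine ⟨?_, hzP'⟩
              rw [hC]
              exact ⟨hzT, hz, h3⟩
          rw [mem_symmDiff'] at h2
          rw [mem_symmDiff']
          tauto
        · have hzP : z ∉ P := by
            intro hzP
            have := hL.disj β P' (hQ P' hP') P hP z hzP' hzP
            rw [this] at hP'Q
            exact hPQ hP'Q
          have h1 := ha P' hP'Q hzP' hmeet' hzT
          have h2 := hzg hzP
          rw [mem_symmDiff']
          tauto
      · intro hno
        have hzP : z ∉ P := fun hzP => hno P (Finset.mem_insert_self _ _) hzP ⟨j, hji, hj⟩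
        have h1 := hbb fun P' hP' => hno P' (Finset.mem_insert_of_mem hP')
        have h2 := hzg hzP
        rw [mem_symmDiff']
        tauto
    · refine ⟨i₁, h01, h1i, c', hc', fun z hz => ?_⟩
      obtain ⟨ha, hbb⟩ := h z hz
      refine ⟨?_, fun hno => hbb fun P' hP' => hno P' (Finset.mem_insert_of_mem hP')⟩
      intro P' hP' hzP' hmeet' hzT
      rcases Finset.mem_insert.1 hP' with rfl | hP'Q
      · exact absurd hmeet' hmeet
      · exact ha P' hP'Q hzP' hmeet' hzT

/-- the claim -/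
theorem claim (hF : ∀ i, IsClosed (F i)) (hm : Monotone F)
    (hL : Lev F lev pc) (hG : Gen F lev pc G) (Δ : Set I) (β : I) :
    ∀ i ∈ LL Δ β, ∀ i₀ < i, ∀ c ∈ MM G i₀, ∀ b : Set Z, IsClopen b →
      (∀ z ∈ TT F i, β ≤ lev z → (z ∈ b ↔ z ∈ c)) →
      ∃ j ∈ Δ, j ≤ i ∧ ∃ j' < j, ∃ c' ∈ MM G j', ∀ z ∈ TT F j, (z ∈ b ↔ z ∈ c') := by
  classical
  induction β using WellFoundedLT.induction with
  | ind β ih =>
    intro i hi i₀ hi₀ c hc b hb hagr
    by_cases ha : ∃ γ < β, ∀ z ∈ TT F i, γ ≤ lev z → (z ∈ b ↔ z ∈ c)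
    · obtain ⟨γ, hγ, h⟩ := ha
      exact ih γ hγ i (LL_anti Δ hγ.le hi) i₀ hi₀ c hc b hb h
    push Not at ha
    have hclob : IsClopen (symmDiff b c) := clopen_symmDiff hb (MM_clo hG.clo i₀ c hc)
    have ha' : ∀ γ < β, ({z | γ ≤ lev z} ∩ (TT F i ∩ symmDiff b c)).Nonempty := by
      intro γ hγ
      obtain ⟨z, hz1, hz2, hz3⟩ := ha γ hγ
      refine ⟨z, hz2, hz1, ?_⟩
      rw [mem_symmDiff']
      tauto
    rcases (Iio β).eq_empty_or_nonempty with h0 | hne
    · refine ⟨i, LL_sub Δ β hi, le_rfl, i₀, hi₀, c, hc, fun z hz => hagr z hz ?_⟩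
      by_contra hcon
      have : lev z ∈ Iio β := not_le.1 hcon
      rw [h0] at this
      exact this
    · have hne' : Nonempty (Iio β) := hne.to_subtype
      have hTc : IsClosed (TT F i) := isClosed_closure
      obtain ⟨x, hx⟩ := IsCompact.nonempty_iInter_of_directed_nonempty_isCompact_isClosed
        (fun γ : Iio β => {z | (γ : I) ≤ lev z} ∩ (TT F i ∩ symmDiff b c))
        (fun γ γ' => ⟨⟨max (γ : I) γ', max_lt γ.2 γ'.2⟩,
          fun z hz => ⟨(le_max_left (γ : I) γ').trans hz.1, hz.2⟩,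
          fun z hz => ⟨(le_max_right (γ : I) γ').trans hz.1, hz.2⟩⟩)
        (fun γ => ha' γ γ.2)
        (fun γ => ((hL.closed γ).inter (hTc.inter hclob.isClosed)).isCompact)
        (fun γ => (hL.closed γ).inter (hTc.inter hclob.isClosed))
      rw [mem_iInter] at hx
      obtain ⟨γ₀, hγ₀⟩ := hne
      have hxT : x ∈ TT F i := (hx ⟨γ₀, hγ₀⟩).2.1
      have hxs : x ∈ symmDiff b c := (hx ⟨γ₀, hγ₀⟩).2.2
      have hxl : ∀ γ < β, γ ≤ lev x := fun γ hγ => (hx ⟨γ, hγ⟩).1
      have hlx : lev x < β := by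
        by_contra hcon
        rw [mem_symmDiff'] at hxs
        exact hxs (hagr x hxT (not_lt.1 hcon))
      obtain ⟨β', hβ'⟩ : ∃ β', β' = lev x := ⟨_, rfl⟩
      rw [← hβ'] at hxl hlx
      set C : Set Z := {z | z ∈ TT F i ∧ β' ≤ lev z ∧ z ∈ symmDiff b c} with hC
      have hClo : IsClosed C := by
        have e : C = TT F i ∩ ({z | β' ≤ lev z} ∩ symmDiff b c) := by
          ext z
          rfl
        rw [e]
        exact hTc.inter ((hL.closed β').inter hclob.isClosed)
      have hClev : ∀ z ∈ C, lev z = β' := by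
        rintro z ⟨hz1, hz2, hz3⟩
        refine le_antisymm ?_ hz2
        apply hxl
        by_contra hcon
        rw [mem_symmDiff'] at hz3
        exact hz3 (hagr z hz1 (not_lt.1 hcon))
      choose U hUo hU using hL.opn β'
      obtain ⟨t, ht⟩ := hClo.isCompact.elim_finite_subcover (fun P : pc β' => U P P.2)
        (fun P => hUo P P.2) (by
          intro z hz
          obtain ⟨P, hP, hzP⟩ := hL.cover z
          rw [hClev z hz] at hP
          exact mem_iUnion.2 ⟨⟨P, hP⟩, (hU P hP z (hClev z hz).ge).2 hzP⟩)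
      obtain ⟨i₁, h01, h1i, c', hc', h⟩ := corr hL hG hi₀ hc hb hC hClo hClev
        (t.image Subtype.val) (by
          intro P hP
          obtain ⟨P', _, rfl⟩ := Finset.mem_image.1 hP
          exact P'.2)
      have hi2 := hi
      rw [LL_eq] at hi2
      obtain ⟨j, hj, h1j, hji⟩ := hi2.2 β' hlx i₁ h1i
      obtain ⟨k, hk, hkj, rest⟩ := ih β' hlx j hj i₁ h1j c' hc' b hb (by
        intro z hz hzl
        have hzi : z ∈ TT F i := TT_mono F hji.le hz
        have hzF : z ∈ F j := TT_sub hF hm j hz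
        obtain ⟨h2, h3⟩ := h z hzl
        by_cases hex : ∃ P ∈ t.image Subtype.val, z ∈ P
        · obtain ⟨P, hP, hzP⟩ := hex
          exact h2 P hP hzP ⟨j, hji, z, hzP, hzF⟩ hzi
        · push Not at hex
          have h4 : z ∈ c' ↔ z ∈ c := h3 fun P hP hzP => absurd hzP (hex P hP)
          have h5 : z ∉ C := by
            intro hzC
            have h6 := ht hzC
            simp only [mem_iUnion] at h6
            obtain ⟨P, hPt, hzU⟩ := h6
            exact hex P (Finset.mem_image_of_mem _ hPt) ((hU P P.2 z hzl).1 hzU)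
          have h7 : z ∉ symmDiff b c := fun h8 => h5 ⟨hzi, hzl, h8⟩
          rw [mem_symmDiff'] at h7
          tauto)
      exact ⟨k, hk, hkj.trans hji.le, rest⟩

end

end SLCM

open SLCM in
theorem specSLC : SpecSLC.{v, w} := by
  intro I _ _ _ hI Z _ _ F lev pc G hF hm hL hG
  refine ⟨MM G, MM_mono hG.mono, MM_cnt hG.cnt, MM_clo hG.clo, ?_⟩
  intro Δ hΔ
  obtain ⟨θ, hθ⟩ := theta hI hL
  refine ((LL_large hI hΔ θ).inter Lg.nonmin).mono ?_
  rintro i ⟨hi, i₀, hi₀⟩ b hb
  exact claim hF hm hL hG Δ θ i hi i₀ hi₀ ∅ (MM_empty G i₀) b hb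
    fun z _ hz => absurd (hθ z) (not_lt.2 hz)

end MPd1327c.ZH
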