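import Pool.Agent.Lib.MP_d1327c_gt.ZH.Spec

/-!
# MP_d1327c_gt, spaces of countable metrizable height: from single sets to letters (module SLW)
-/

set_option autoImplicit false

open Set Topology TopologicalSpace

namespace MPd1327c.ZH

universe u v w

namespace SLWM

open Classical in
/-- the list version, by induction on the length of the list -/
theorem lists {I : Type v} [LinearOrder I] [Uncountable I]
    (hI : ∀ i : I, (Iio i).Countable) {Y : Type u} [TopologicalSpace Y] {𝔸 : Set (Set Y)}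
    {K : I → Set Y} {M : I → Set (Set Y)} (hS : Sys 𝔸 K M) (n : ℕ) :
    ∀ Δ : List (Set Y) → Set I,
      (∀ L' i, L'.length = n → (∀ l ∈ L', l ∈ M i) → Lg (Δ L')) →
      Lg {i | ∀ L : List (Set Y), L.length = n → (∀ l ∈ L, l ∈ 𝔸) → ∃ j ≤ i, ∃ L' : List (Set Y),
        L'.length = n ∧ (∃ j', ∀ l ∈ L', l ∈ M j') ∧ j ∈ Δ L' ∧
        ∀ y ∈ K j, L.map (fun l => decide (y ∈ l)) = L'.map (fun l => decide (y ∈ l))} := by
  induction n with
  | zero =>
    intro Δ hΔ
    have hne : Nonempty I := inferInstance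
    obtain ⟨i₀⟩ := hne
    refine (hΔ [] i₀ rfl (by simp)).mono ?_
    intro i hi L hL _
    have hL' : L = [] := List.length_eq_zero_iff.mp hL
    subst hL'
    exact ⟨i, le_rfl, [], rfl, ⟨i₀, by simp⟩, hi, fun y _ => rfl⟩
  | succ n ih =>
    intro Δ hΔ
    -- the large sets of the induction hypothesis
    have h1 : ∀ k, ∀ l' ∈ M k, Lg {i | ∀ L : List (Set Y), L.length = n → (∀ l ∈ L, l ∈ 𝔸) →
        ∃ j ≤ i, ∃ L' : List (Set Y), L'.length = n ∧ (∃ j', ∀ l ∈ L', l ∈ M j') ∧
          j ∈ Δ (l' :: L') ∧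
          ∀ y ∈ K j, L.map (fun l => decide (y ∈ l)) = L'.map (fun l => decide (y ∈ l))} := by
      intro k l' hl'
      refine ih (fun L' => Δ (l' :: L')) ?_
      intro L' i hL' hLM
      refine hΔ (l' :: L') (max k i) (by simp [hL']) ?_
      intro l hl
      rcases List.mem_cons.mp hl with h | h
      · subst h
        exact hS.monoM (le_max_left k i) hl'
      · exact hS.monoM (le_max_right k i) (hLM l h)
    have h2 := Lg.diag hI fun k => Lg.biInter hI (hS.cnt k) (h1 k)
    refine (hS.one _ h2).mono ?_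
    intro i hi L hL hLA
    obtain ⟨l, L₀, rfl⟩ : ∃ l L₀, L = l :: L₀ := by
      cases L with
      | nil => simp at hL
      | cons l L₀ => exact ⟨l, L₀, rfl⟩
    obtain ⟨j₁, hj₁, hj₁i, j', hj', l', hl', hll'⟩ := hi l (hLA l (by simp))
    have hj₂ := hj₁ j' hj' l' hl' L₀ (by simpa using hL)
      (fun x hx => hLA x (List.mem_cons_of_mem _ hx))
    obtain ⟨j, hj, L₁, hL₁, ⟨j'', hj''⟩, hjΔ, hpat⟩ := hj₂
    refine ⟨j, hj.trans hj₁i, l' :: L₁, by simp [hL₁], ⟨max j' j'', ?_⟩, hjΔ, ?_⟩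
    · intro x hx
      rcases List.mem_cons.mp hx with h | h
      · subst h
        exact hS.monoM (le_max_left j' j'') hl'
      · exact hS.monoM (le_max_right j' j'') (hj'' x h)
    · intro y hy
      have hy1 : y ∈ K j₁ := hS.monoK hj hy
      have h3 := hpat y hy
      have h4 : decide (y ∈ l) = decide (y ∈ l') := by
        by_cases h5 : y ∈ l
        · have h6 : y ∈ l' := (hll' y hy1).mp h5
          rw [decide_eq_true h5, decide_eq_true h6]
        · have h6 : y ∉ l' := fun h7 => h5 ((hll' y hy1).mpr h7)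
          rw [decide_eq_false h5, decide_eq_false h6]
      rw [List.map_cons, List.map_cons, h3, h4]

end SLWM

theorem specSLW : SpecSLW.{u, v} := by
  classical
  intro I _ _ _ hI Y _ 𝔸 K M hS Δ hΔ
  have h1 : ∀ (n : ℕ) (φ : List Bool →₀ ℚ), Lg {i | ∀ L : List (Set Y), L.length = n →
      (∀ l ∈ L, l ∈ 𝔸) → ∃ j ≤ i, ∃ L' : List (Set Y),
        L'.length = n ∧ (∃ j', ∀ l ∈ L', l ∈ M j') ∧ j ∈ Δ (L', φ) ∧
        ∀ y ∈ K j, L.map (fun l => @decide (y ∈ l) (Classical.propDecidable _)) =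
          L'.map (fun l => @decide (y ∈ l) (Classical.propDecidable _))} := by
    intro n φ
    exact SLWM.lists hI hS n (fun L' => Δ (L', φ)) fun L' i _ hL => hΔ (L', φ) i hL
  have h2 := Lg.iInter hI fun p : ℕ × (List Bool →₀ ℚ) => h1 p.1 p.2
  refine h2.mono ?_
  rintro i hi ⟨L, φ⟩ hw
  obtain ⟨j, hj, L', hL', hM, hjΔ, hpat⟩ := hi (L.length, φ) L rfl hw
  refine ⟨j, hj, (L', φ), hM, hjΔ, ?_⟩
  intro y hy
  have h3 := hpat y hy
  unfold val
  simp only
  rw [h3]

end MPd1327c.ZH
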