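import Pool.Agent.Lib.MP_d1327c_gt.ZH.Defs

/-!
# MP_d1327c_gt, spaces of countable metrizable height: the modules, with their proofs

**Theorem** (`SpecASM`). Let `K a`, `a ∈ A`, be compact Hausdorff spaces with points `o a`, each the
union of closed metrizable sets `F a i`, `i < ω₁`, increasing in `i` and containing `o a`, and
suppose that there is `lev a : K a → ω₁` with `{x | α ≤ lev a x}` closed and `{x | lev a x = α}`
metrizable for all `α` (a filtration of countable length with metrizable differences). Then every
closed subspace `X` of the product of the `K a`, all of whose points differ from `o` in countably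
many coordinates only, is a continuous image of a compact zero-dimensional `Y` with `C_p (Y)`
Lindelöf.

Plan. `ZDP`: `K a` is an image of a zero-dimensional compact `Z a` such that the preimages of the
`F a i` are second countable and the fibre over `o a` is a point. `PCS`: the levels of `K a` are
disjoint unions of relatively open pieces, each inside some `F a j`; so are the levels of `Z a`.
`GEN`, `SLC`: in `Z a` there are countable sets `M i` of clopen sets, `i < ω₁`, such that every
clopen set agrees, on the closure `TT j` of the union of the `F i`, `i < j`, with a member of some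
`M j'`, `j' < j`; here `j ≤ i` is in a given large set and `i` is any element of some other large
set. `CHA`: the same for closed subsets `Y` of the product of the `Z a` (small supports) and the
sets `{y | y a ∈ b}`. `APX`, `LIM`, `SLW`, `TRE`: this makes `C_p (Y)` Lindelöf.

The facts on large sets (`Lg`) are proved in `Defs`.
-/

set_option autoImplicit false

open Set Topology TopologicalSpace

namespace MPd1327c.ZH

universe u v w

/-- **PCS** (150 lines, deps: none). The levels split into pieces.

Proof. Fix `α`; `D = {x | lev x = α}` (a subtype). (1) `D` is locally compact: `{x | α ≤ lev x}` is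
compact and `D` is open in it (`D = {α ≤ lev} ∩ {α + 1 ≤ lev}ᶜ`, where the second set is
`{x | ∀ β, α < β → β ≤ lev x}ᶜ`, that is, with `s` the least element above `α`, `{s ≤ lev}ᶜ`). By
hypothesis `D` is metrizable, so paracompact. (2) The open sets with compact closure cover `D`; take
a locally finite open refinement `V k`, `k ∈ κ`, which covers `D` (`precise_refinement` or
`exists_locallyFinite..`), so each `closure (V k)` is compact (closed in a compact set). Each `V k`
meets only finitely many `V l` (`LocallyFinite.finite_nonempty_inter_compact`). (3) Let `k ~ l` be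
the equivalence relation generated by `V k` meets `V l` (`Relation.EqvGen` or
`Relation.ReflTransGen` of the symmetric relation). The class of `k` is countable: it is the union
over `n` of the finite sets of the indices reached in `n` steps. (4) For a class `c` let `Q c` be the
union of its `V k`; the `Q c` are open, cover `D`, and two of them which meet are equal (if
`z ∈ V k ∩ V l`, then `k ~ l`). Let `pc α` be the set of the images of the `Q c` in `K`. (5) `bdd`:
`closure (V k)` is a compact subset of the metrizable space `D`, so separable; a countable dense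
subset of it is contained in one `F j` (`F` increasing, `bound`), which is closed, so
`V k ⊆ F j`; countably many `k`, so `Q c ⊆ F j` for one `j` (`bound` again). (6) `opn`: `Q c` is open
in `D`, so `= D ∩ U` with `U` open in `K`; take `U ∩ {s ≤ lev}ᶜ`. -/
def SpecPCS : Prop :=
  ∀ (I : Type v) [LinearOrder I] [WellFoundedLT I] [Uncountable I], (∀ i : I, (Iio i).Countable) →
  ∀ (K : Type w) [TopologicalSpace K] [CompactSpace K] [T2Space K] (F : I → Set K) (lev : K → I),
    (∀ i, IsClosed (F i)) → Monotone F → (∀ x, ∃ i, x ∈ F i) →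
    (∀ α, IsClosed {x | α ≤ lev x}) → (∀ α, MetrizableSpace {x // lev x = α}) →
    ∃ pc : I → Set (Set K), Lev F lev pc

/-- **ZDP** (200 lines, deps: none; uses `Lib/MP_d1327c_gt/{SPL,CST}.lean` of helper40). The
zero-dimensional preimage.

Proof. Copy `CST.lean` (all of it) with `ℝ` replaced by `ℕ → ℝ` as the range of the functions
`f ξ` (the proofs stay as they are: countable products of `ℕ → ℝ` and `Bool` are second countable
and metrizable). (0) For every `i` there is a continuous `f i : K → (ℕ → ℝ)` injective on `F i`: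
`F i` is compact and second countable, so for a countable base of `F i` take, for each of the
countably many pairs of members with disjoint closures, a Urysohn function on `K` (normal) which is
`0` on the one closure and `1` on the other. (1) Put `F' β = F j` if `β` has an immediate
predecessor `j` (that is, `j < β` and `∀ i < β, i ≤ j`), and `F' β = {o}` otherwise; closed. The
`f ξ`, `ξ < β`, separate the points of `F' β` (if `j` is the predecessor, `f j` is among them). So
`exists_data` with `S = univ` gives `W` with `Good f F' univ γ W (W γ)` for all `γ`. Let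
`Z = {y : K × ZZ I // ∀ γ, Cn (W) γ y}`, compact (`isClosed_cn`), and `p y = y.1.1`. (2) `uniq`
(as in `SIG.lean`, `huniq`): if `p y, p y' ∈ F' β` and `y, y'` have the same bits `(α, n)` for
`α < β`, then `y = y'`. For `β` the least element this says that the fibre over `o` has at most one
point. Let `β` be the successor of `i` (the least element above `i`, `exists_gt'`), so
`F' β = F i`: on `p ⁻¹' F i` (compact) the map to `Iio β × ℕ → Bool` is continuous and injective, so
an embedding in a second countable space; hence `p ⁻¹' F i` is second countable. (3) `Z` is totally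
disconnected: all bits together are injective on `Z`: `eqf` shows that equal bits give
`f ξ (p y) = f ξ (p y')` for all `ξ`, and two points of `K` lie in one `F i`, where `f i` is
injective. (`SIG.lean`, `hinj`, `htd`.) (4) `p` is onto: `exists_ext` with `δ` the least element
(`SIG.lean`, `hlift`). -/
def SpecZDP : Prop :=
  ∀ (I : Type v) [LinearOrder I] [WellFoundedLT I] [Uncountable I], (∀ i : I, (Iio i).Countable) →
  ∀ (K : Type w) [TopologicalSpace K] [CompactSpace K] [T2Space K] (o : K) (F : I → Set K),
    (∀ i, IsClosed (F i)) → Monotone F → (∀ i, SecondCountableTopology (F i)) →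
    (∀ i, o ∈ F i) → (∀ x, ∃ i, x ∈ F i) →
    ∃ (Z : Type (max v w)) (_ : TopologicalSpace Z) (_ : CompactSpace Z) (_ : T2Space Z)
      (_ : TotallyDisconnectedSpace Z) (p : Z → K), Continuous p ∧ Function.Surjective p ∧
      (∀ z z', p z = o → p z' = o → z = z') ∧ ∀ i, SecondCountableTopology (p ⁻¹' F i)

/-- **GEN** (150 lines, deps: none). Countably many clopen sets which catch the closed subsets of the
pieces.

Proof. (1) There is `θ` with `lev z < θ` for all `z`: otherwise the closed sets `{z | α ≤ lev z}`,
decreasing in `α`, are all nonempty, so have a common point `z` (compactness), against `exists_gt'`.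
(2) For every `α` and `j` only countably many `P ∈ pc α` meet `F j`: the sets `P ∩ F j` are disjoint
(`disj`), nonempty and relatively open (`opn`) in the second countable space `F j ∩ {α ≤ lev}`
(`Set.PairwiseDisjoint.countable_of_isOpen`). (3) For `P ∈ pc α` let `Tr α P` be the set of all
`e ⊆ P` of the form `e = c ∩ {α ≤ lev}` with `c` clopen in `Z`. It is countable: `P` is contained in
some `F j`, so is a second countable subspace; `e` is compact and open in `P` (`e = c ∩ P`), so a
finite union of members of a countable base of `P`. (4) Choose for every `e ∈ Tr α P` a clopen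
`c (e)` with `e = c (e) ∩ {α ≤ lev}`. Let `G j` be the set of all `c (e)`, `e ∈ Tr α P`, `α < θ`,
`P ∈ pc α`, `P` meets `F j`. Countable, and increasing in `j` since `F` is. (5) `fit`: let `P ∈ pc α`
meet `F j`, let `C ⊆ P` be closed, `C ⊆ b` with `b` open, `U` as in `opn`. As `C` is compact and the
clopen sets are a base of `Z`, there is a clopen `c₀` with `C ⊆ c₀ ⊆ b ∩ U`. Put
`e = c₀ ∩ {α ≤ lev}`; it is contained in `U ∩ {α ≤ lev} = P`, so `e ∈ Tr α P`; and `α < θ` since `P`
has a point, of level `α`. So `c (e) ∈ G j`, `C ⊆ e ⊆ c (e)` (points of `P` have level `α`), and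
`z ∈ c (e)`, `α ≤ lev z` give `z ∈ e`, so `z ∈ b` and `z ∈ P`. -/
def SpecGEN : Prop :=
  ∀ (I : Type v) [LinearOrder I] [WellFoundedLT I] [Uncountable I], (∀ i : I, (Iio i).Countable) →
  ∀ (Z : Type w) [TopologicalSpace Z] [CompactSpace Z] [T2Space Z] [TotallyDisconnectedSpace Z]
    (F : I → Set Z) (lev : Z → I) (pc : I → Set (Set Z)),
    Monotone F → (∀ i, SecondCountableTopology (F i)) → Lev F lev pc →
    ∃ G : I → Set (Set Z), Gen F lev pc G

/-- **SLC** (170 lines, deps: none). The correction along the levels.

Proof. `symmDiff` is written `+`. Let `M i` be the set of all `g₁ + .. + g_n`, `g_k ∈ G i` (`n ≥ 0`;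
`{c | ∃ l : List (Set Z), (∀ g ∈ l, g ∈ G i) ∧ c = l.foldr symmDiff ∅}`): countable, increasing,
clopen members, contains `∅`, and `c ∈ M i`, `g ∈ G i` give `g + c ∈ M i`. Write `T j = TT F j`; it is
closed, increasing in `j`, and `T j ⊆ F j`. Write `Z α = {z | α ≤ lev z}`.
As in `GEN` (1) there is `θ` with `lev z < θ` for all `z`.
Let `Δ` be large. Let `L β`, `β ∈ I`, be defined by recursion:
`L β = {i ∈ Δ | ∀ γ < β, ∀ i₀ < i, ∃ j ∈ L γ, i₀ < j ∧ j < i}`. By induction every `L β` is large
(`Lg.lim`, `Lg.biInter` over the countable `Iio β`, `Lg.inter`), and `L β ⊆ L γ ⊆ Δ` for `γ ≤ β`.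
**Claim.** For all `β`, `i ∈ L β`, `i₀ < i`, `c ∈ M i₀`, `b` clopen with
`(b + c) ∩ T i ∩ Z β = ∅` there are `j ∈ Δ`, `j ≤ i`, `j' < j`, `c' ∈ M j'` with `b` and `c'` equal
on `T j`. Induction on `β` (all `i, i₀, c, b`).
(a) If `(b + c) ∩ T i ∩ Z γ = ∅` for some `γ < β`, use the claim for `γ`, since `i ∈ L γ`.
(b) If `β` is the least element, `Z β` is everything and `b = c` on `T i`: `j = i`, `j' = i₀`.
(c) Otherwise all `(b + c) ∩ T i ∩ Z γ`, `γ < β`, are nonempty, compact and decreasing (and there are
such `γ`), so they have a common point `x`; put `β' = lev x`. As `x ∈ (b + c) ∩ T i`, `x ∉ Z β`, so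
`β' < β`; and `γ ≤ β'` for all `γ < β`. The set `C = (b + c) ∩ T i ∩ Z β'` is closed and all its
points have level `β'`: level `≥ β'` clear; `lev z > β'` would give `lev z ≥ β` (else
`lev z ≤ β'`), so `z ∈ Z β`. By `cover`, `opn` and compactness `C` is covered by finitely many pieces
of level `β'`; let `Q` be a finite subset of `pc β'` which covers `C`.
By induction on finite sets `Q ⊆ pc β'`: there are `i₁` with `i₀ ≤ i₁ < i` and `c' ∈ M i₁` such that
for all `z ∈ Z β'`: if `z` is in a member `P` of `Q` which meets some `F j`, `j < i`, and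
`z ∈ T i`, then `z ∈ b ↔ z ∈ c'`; and if `z` is in no member of `Q`, or in a member of `Q` which meets
no `F j`, `j < i`, then `z ∈ c' ↔ z ∈ c`. Start: `c' = c`. Step from `Q` to `Q ∪ {P}`, `P ∉ Q`: if `P`
meets no `F j`, `j < i`, keep `c'`. Else `P` meets `F j`, `j < i`; `C ∩ P` is closed
(`C ∩ P = C ∩ (union of the open sets of the other pieces)ᶜ`) and contained in the open set `b + c`;
by `fit` there is `g ∈ G j` with `C ∩ P ⊆ g` and `g ∩ Z β' ⊆ (b + c) ∩ P`. Take `g + c'` and
`max i₁ j`. Points of `Z β'` outside `P` are not in `g`: nothing changes. For `z ∈ P` (so `z` is in no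
member of `Q`, as pieces are disjoint) `z ∈ c' ↔ z ∈ c`, and if `z ∈ T i`: `z ∈ g ↔ z ∈ b + c` (if
`z ∈ b + c` then `z ∈ C ∩ P ⊆ g`), so `z ∈ g + c' ↔ z ∈ b`.
By `i ∈ L β`, `β' < β` there is `j ∈ L β'` with `i₁ < j < i`. Then `(b + c') ∩ T j ∩ Z β' = ∅`: let
`z ∈ T j`, `β' ≤ lev z`; `z ∈ T i` and `z ∈ F j`. If `z` is in a member `P` of `Q`: `P` meets `F j`
in `z`, so `z ∈ b ↔ z ∈ c'`. If `z` is in no member of `Q`, then `z ∉ C`, so `z ∉ b + c`, and
`z ∈ c' ↔ z ∈ c ↔ z ∈ b`. So the claim for `β'`, `j`, `i₁ < j`, `c' ∈ M i₁` applies; the result has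
`j* ≤ j ≤ i`.
**End.** For `i ∈ L θ` with `Iio i` nonempty (`Lg.nonmin`), `i₀ < i` and `b` clopen, the claim with
`c = ∅ ∈ M i₀` and `Z θ = ∅` gives what is wanted. -/
def SpecSLC : Prop :=
  ∀ (I : Type v) [LinearOrder I] [WellFoundedLT I] [Uncountable I], (∀ i : I, (Iio i).Countable) →
  ∀ (Z : Type w) [TopologicalSpace Z] [CompactSpace Z] (F : I → Set Z) (lev : Z → I)
    (pc G : I → Set (Set Z)), (∀ i, IsClosed (F i)) → Monotone F → Lev F lev pc →
    Gen F lev pc G → ∃ M : I → Set (Set Z), Mod F M

/-- **CHA** (200 lines, deps: none). From the spaces `Z a` to subsets of the product.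

Proof. For `B ⊆ A` and `k ∈ I` let `Mc k B` be the set of `∅`, `univ` and the sets
`{x : X | x.1 a ∈ c}`, `a ∈ B`, `c ∈ M a k`; countable if `B` is. Let `N k B` be the union of the
supports `{a | y a ≠ o a}` of all `y ∈ E s`, over all words `s` with `OverL (Mc k B) s`; countable
if `B` is (lists over a countable set, `List Bool →₀ ℚ` is countable, `E s` is finite). By recursion
(`exists_rec` of `SPL.lean`, or `WellFounded.fix`; as in `chain` of `CHN.lean`) let
`B i = ⋃ k < i, (B k ∪ N k (B k))`: countable, increasing, and `N k (B k) ⊆ B i` for `k < i`. Put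
`B' j = ⋃ k < j, B k`, `M' i = Mc i (B i)`, and
`K j = {y | ∀ a, y.1 a ∈ TT (F a) j ∧ (a ∉ B' j → y.1 a = o a)}`. All are increasing (`TT F` is
increasing). The members of `M' i` are clopen (preimages of clopen sets; `Mod.clo`), `M' i` is
countable.
*The condition on `E`.* Let `OverL (M' i) s`. For every `y ∈ E s` and `a` choose `i (y, a)` with
`y.1 a ∈ F a i (y, a)`. The set of the `i (y, a)`, `y ∈ E s`, `y.1 a ≠ o a`, together with `i`, is
countable, so there are `k` above all its elements and `i'` above `k`. Let `y ∈ E s`. For `a` with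
`y.1 a ≠ o a`, `y.1 a ∈ F a i (y, a) ⊆ TT (F a) i'`; for other `a`,
`y.1 a = o a ∈ F a k ⊆ TT (F a) i'`. If `a ∉ B' i'` then `a ∉ B k`, so `a ∉ N i (B i)` (`i < k`), so
`y.1 a = o a`. So `y ∈ K i'`.
*The condition `one`.* Let `Δ` be large. For `a ∈ A` let `Δ a` be the large set of `Mod.one` for
`Δ`. By `Lg.diag` and `Lg.biInter` the set `Δ'` of all `i ∈ Δ` with `Iio i` nonempty and `i ∈ Δ a`
for all `k < i` and all `a ∈ B k` is large. Let `i ∈ Δ'` and let `l = {x | x.1 a ∈ b}` with `b`
clopen. If `a ∉ B' i`, all `y ∈ K i` have `y.1 a = o a`, so `l` agrees on `K i` with `univ` or with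
`∅`: take `j = i` and any `j' < i`. If `a ∈ B k`, `k < i`, then `i ∈ Δ a` gives `j ∈ Δ`, `j ≤ i`,
`j' < j`, `c ∈ M a j'` with `b = c` on `TT (F a) j`. If `a ∉ B' j`, again `l` agrees on `K j` with
`univ` or `∅`, members of `M' j'`. If `a ∈ B k'`, `k' < j`, let `j'' = max k' j' < j`: then
`{x | x.1 a ∈ c} ∈ M' j''`, and it agrees with `l` on `K j`, since `y ∈ K j` has
`y.1 a ∈ TT (F a) j`. -/
def SpecCHA : Prop :=
  ∀ (I : Type v) [LinearOrder I] [WellFoundedLT I] [Uncountable I], (∀ i : I, (Iio i).Countable) →
  ∀ (A : Type u) (Z : A → Type w) [∀ a, TopologicalSpace (Z a)] (o : ∀ a, Z a)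
    (F : ∀ a, I → Set (Z a)) (M : ∀ a, I → Set (Set (Z a))), (∀ a, Monotone (F a)) →
    (∀ a i, o a ∈ F a i) → (∀ a z, ∃ i, z ∈ F a i) → (∀ a, Mod (F a) (M a)) →
    ∀ X : Set (∀ a, Z a), (∀ x ∈ X, {a | x a ≠ o a}.Countable) →
    ∀ E : List (W X) → Finset X, ∃ (K : I → Set X) (M' : I → Set (Set X)),
      Sys {l : Set X | ∃ a, ∃ b : Set (Z a), IsClopen b ∧ l = {x : X | x.1 a ∈ b}} K M' ∧
      ∀ s i, OverL (M' i) s → ∃ i', ∀ y ∈ E s, y ∈ K i'

/-- **APX** (80 lines, deps: none; may use `approx` of `Lib/MP_d1327c_gt/LND.lean`). Uniform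
approximation by the functions of letters.

Proof. `approx` (helper40) with `J = 𝔸` (subtype), `c l y = decide (y ∈ l)`, `G = univ`, `s = univ`
gives a finite set `E ⊆ 𝔸` and `φ : (E → Bool) → ℚ` with
`|u y - φ (fun l => decide (y ∈ l))| < η`. Let the list of the letter be `E.toList` and its function
the finitely supported function which is `φ` (of the pattern) on lists of length `E.card` and `0`
elsewhere (`Finsupp.onFinset`; the lists of `Bool` of a given length form a finite set). Or directly:
by compactness of `{(y, y') | η / 2 ≤ |u y - u y'|}` there are finitely many members `l₁ .. l_n` of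
`𝔸` such that points with the same pattern have values less than `η / 2` apart; let the function be,
on the pattern of some `y`, a rational number within `η / 2` of `u y`. -/
def SpecAPX : Prop :=
  ∀ (Y : Type u) [TopologicalSpace Y] [CompactSpace Y] (𝔸 : Set (Set Y)),
    (∀ l ∈ 𝔸, IsClopen l) → (∀ y y' : Y, (∀ l ∈ 𝔸, (y ∈ l ↔ y' ∈ l)) → y = y') →
    ∀ u : Y → ℝ, Continuous u → ∀ η : ℝ, 0 < η → ∃ w : W Y, Over 𝔸 w ∧ ∀ y, |u y - val w y| < η

/-- **LIM** (90 lines, deps: none). Continuity of the functions of letters and of the limits of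
words.

Proof. (1) For `l` clopen `y ↦ decide (y ∈ l)` is continuous, so by induction on the list
`y ↦ w.1.map (..)` is continuous (locally constant) for the discrete topology of `List Bool`, and
`val w` is continuous. (2) `cl 0` is the identity, `cl n x = max (-1) (min 1 x)` for `n > 0`; both are
continuous. (3) By induction on `n` the length of `s n` is `n` and
`dec (s n) y = ∑ k < n, cl k (val (w k) y) / 2 ^ k`. For `k ≥ 1` the terms are at most `1 / 2 ^ k` in
absolute value. So `u y = ∑' k` converges, `|u y - dec (s n) y| ≤ ∑ k ≥ n, 1 / 2 ^ k = 2 / 2 ^ n` for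
`n ≥ 1`, and `u` is a uniform limit of the continuous functions `dec (s n)`. -/
def SpecLIM : Prop :=
  (∀ (Y : Type u) [TopologicalSpace Y] (w : W Y), (∀ l ∈ w.1, IsClopen l) →
    Continuous (val w)) ∧ (∀ n, Continuous (cl n)) ∧
  ∀ (Y : Type u) [TopologicalSpace Y] (s : ℕ → List (W Y)) (w : ℕ → W Y), s 0 = [] →
    (∀ n, s (n + 1) = w n :: s n) → (∀ n, ∀ l ∈ (w n).1, IsClopen l) →
    ∃ u : Y → ℝ, Continuous u ∧ ∀ n, 1 ≤ n → ∀ y, |u y - dec (s n) y| ≤ 2 / 2 ^ n

/-- **SLW** (120 lines, deps: none). From single sets to letters (lists of sets).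

Proof. First for lists, by induction on `n`: for every `Δ : List (Set Y) → Set I` such that `Δ L'`
is large for all lists `L'` of length `n` over some `M j'`, the set of all `i` with the following
property is large: for every list `L` of length `n` over `𝔸` there are `j ≤ i`, `L'` of length `n`
over some `M j'` with `j ∈ Δ L'` and the same pattern as `L` at all `y ∈ K j`
(`L.map (fun l => decide (y ∈ l)) = L'.map (fun l => decide (y ∈ l))`). `n = 0`: `Δ []` is large, take
`j = i`. Step: for every `l' ∈ ⋃ M j'` let `Δ₁ l'` be the large set of the induction hypothesis for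
`L₁ ↦ Δ (l' :: L₁)` (if `l' ∈ M j₁` and `L₁` is over `M j₂`, then `l' :: L₁` is over
`M (max j₁ j₂)`). By `Lg.diag`, `Lg.biInter` (`M k` is countable) the set `Δ₂` of all `i` with
`i ∈ Δ₁ l'` for all `k < i`, `l' ∈ M k`, is large. Let `Δ₃` be the large set of `Sys.one` for `Δ₂`.
Let `i ∈ Δ₃` and let `l :: L₀` be over `𝔸`. There are `j₁ ∈ Δ₂`, `j₁ ≤ i`, `j' < j₁`, `l' ∈ M j'`,
which agrees with `l` on `K j₁`; so `j₁ ∈ Δ₁ l'`, and there are `j ≤ j₁` and `L₁` over some `M j''`
with `j ∈ Δ (l' :: L₁)` and the pattern of `L₀` on `K j`. As `K j ⊆ K j₁`, `l' :: L₁` has the pattern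
of `l :: L₀` on `K j`.
Letters: for `n` and `φ : List Bool →₀ ℚ` (countably many) apply this to `L' ↦ Δ (L', φ)` and
intersect (`Lg.iInter`); `val (L, φ)` depends on the pattern and `φ` only. -/
def SpecSLW : Prop :=
  ∀ (I : Type v) [LinearOrder I] [WellFoundedLT I] [Uncountable I], (∀ i : I, (Iio i).Countable) →
  ∀ (Y : Type u) [TopologicalSpace Y] (𝔸 : Set (Set Y)) (K : I → Set Y) (M : I → Set (Set Y)),
    Sys 𝔸 K M → ∀ Δ : W Y → Set I, (∀ w i, Over (M i) w → Lg (Δ w)) →
    Lg {i | ∀ w, Over 𝔸 w → ∃ j ≤ i, ∃ w', (∃ j', Over (M j') w') ∧ j ∈ Δ w' ∧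
      ∀ y ∈ K j, val w y = val w' y}

/-- **TRE** (200 lines, deps: APX, LIM, SLW). The Lindelöf property.

Proof. Use `isLindelof_of_countable_subcover`: let `U i`, `i ∈ ι`, be open in `Y → ℝ` and cover the
continuous functions. A word `s` is *decided* if `s ≠ []` and there are `i` and a finite `E ⊆ Y` with
`∀ g, (∀ y ∈ E, |g y - dec s y| ≤ 2 / 2 ^ s.length) → g ∈ U i`. Choose `ii s`, `E s` for the decided
words and put `E s = ∅` for the others. Take `K`, `M` for this `E`. Say that `s` is *over* if
`OverL (M i) s` for some `i`. For a word `s` and `i ∈ I` let `Good s i` say: for all continuous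
`u, v : Y → ℝ` such that `s ≠ []` implies `|u y - v y| ≤ 1 / 2 ^ s.length` for all `y`, and such that
`v y = dec s y` for all `y ∈ K i`, there is a decided word `t` with `OverL (M i) t` and
`u ∈ U (ii t)`.
(1) If `s` is over and decided, `{i | Good s i}` is large: it contains all `i` above `i₁` and `i₂`,
where `OverL (M i₁) s` and `E s ⊆ K i₂` (`Lg.tail`, `Lg.inter`): take `t = s`; for `y ∈ E s ⊆ K i`,
`|u y - dec s y| = |u y - v y| ≤ 1 / 2 ^ s.length`.
(2) If `{i | Good (w' :: s) i}` is large for all letters `w'` over some `M j'`, then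
`{i | Good s i}` is large: apply SLW to `Δ w' = {i | Good (w' :: s) i}`; let `i` be in the large set
it gives, and `u, v` as in `Good s i`, `n = s.length`. By APX there is a letter `w` over `𝔸` with
`|2 ^ n * (u y - v y) - val w y| < 1 / 2` for all `y`. Let `j ≤ i`, `w'` be as in SLW and
`v' y = v y + cl n (val w y) / 2 ^ n`, continuous (LIM). Then `|u y - v' y| ≤ 1 / 2 ^ (n + 1)`: for
`n = 0`, `cl` is the identity; for `n > 0`, `|2 ^ n * (u y - v y)| ≤ 1`, and `cl n` does not increase
the distance to points of `[-1, 1]`. On `K j ⊆ K i`,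
`v' y = dec s y + cl n (val w' y) / 2 ^ n = dec (w' :: s) y`. So `Good (w' :: s) j` gives `t` over
`M j ⊆ M i`.
(3) `{i | Good [] i}` is large. If not, by (2) (contraposition) and dependent choice there are
letters `w n` over some `M j'` and words `s 0 = []`, `s (n + 1) = w n :: s n`, all over (`M` is
increasing), with `{i | Good (s n) i}` not large. By LIM (the members of `M j'` are clopen) there is
a continuous `u` with `|u y - dec (s n) y| ≤ 2 / 2 ^ n` for `n ≥ 1`. Let `u ∈ U i`. There are a finite
`E` and `ε > 0` with `∀ g, (∀ y ∈ E, |g y - u y| < ε) → g ∈ U i` (`isOpen_pi_iff`, see `lindelof` in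
`LND.lean`). For `n ≥ 1` with `4 / 2 ^ n < ε` the word `s n` is decided, against (1).
(4) So there is `i` with `Good [] i` (`Lg.exists_gt`). With `v = 0` every continuous `u` is in
`U (ii t)` for some `t` with `OverL (M i) t`; there are countably many such `t` (lists over a
countable set), so the `ii t` are a countable subfamily which covers. -/
def SpecTRE : Prop :=
  ∀ (I : Type v) [LinearOrder I] [WellFoundedLT I] [Uncountable I], (∀ i : I, (Iio i).Countable) →
  ∀ (Y : Type u) [TopologicalSpace Y] [CompactSpace Y] (𝔸 : Set (Set Y)),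
    (∀ l ∈ 𝔸, IsClopen l) → (∀ y y' : Y, (∀ l ∈ 𝔸, (y ∈ l ↔ y' ∈ l)) → y = y') →
    (∀ E : List (W Y) → Finset Y, ∃ (K : I → Set Y) (M : I → Set (Set Y)), Sys 𝔸 K M ∧
      ∀ s i, OverL (M i) s → ∃ i', ∀ y ∈ E s, y ∈ K i') →
    IsLindelof {u : Y → ℝ | Continuous u}

/-- **ASM** (150 lines, deps: PCS, ZDP, GEN, SLC, CHA, TRE). The theorem.

Proof. `F a i` is compact and metrizable, so second countable. For every `a` take `Z a`, `p a` from
ZDP and `pc a` from PCS (on `K a`). Pull back: `F' a i = p a ⁻¹' F a i` (closed, increasing, second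
countable, union `Z a`), `lev' a z = lev a (p a z)`, `pc' a α = {p a ⁻¹' P | P ∈ pc a α}`;
`Lev (F' a) (lev' a) (pc' a)` holds (all fields are preimages). By GEN and SLC there is `M a` with
`Mod (F' a) (M a)`. Let `o' a` be the point of `Z a` over `o a`; `z ≠ o' a` iff `p a z ≠ o a`. Let
`X' = {z : ∀ a, Z a | (fun a => p a (z a)) ∈ X}`, closed in the product, `Y` the subtype: compact,
Hausdorff, totally disconnected, so the clopen sets are a base (`isTopologicalBasis_isClopen`), and
the supports `{a | z a ≠ o' a} = {a | p a (z a) ≠ o a}` are countable. `g z = (p a (z a))` is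
continuous and onto `X`. TRE with `𝔸` the set of CHA: its members are clopen; they separate points,
since in the compact totally disconnected space `Z a` two different points are separated by a clopen
set; and CHA gives the condition for every `E`. -/
def SpecASM : Prop :=
  ∀ (I : Type v) [LinearOrder I] [WellFoundedLT I] [Uncountable I], (∀ i : I, (Iio i).Countable) →
  ∀ (A : Type u) (K : A → Type w) [∀ a, TopologicalSpace (K a)] [∀ a, CompactSpace (K a)]
    [∀ a, T2Space (K a)] (o : ∀ a, K a) (F : ∀ a, I → Set (K a)) (lev : ∀ a, K a → I),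
    (∀ a i, IsClosed (F a i)) → (∀ a i, MetrizableSpace (F a i)) → (∀ a, Monotone (F a)) →
    (∀ a i, o a ∈ F a i) → (∀ a x, ∃ i, x ∈ F a i) → (∀ a α, IsClosed {x | α ≤ lev a x}) →
    (∀ a α, MetrizableSpace {x // lev a x = α}) →
    ∀ X : Set (∀ a, K a), IsClosed X → (∀ x ∈ X, {a | x a ≠ o a}.Countable) →
    ∃ (Y : Type (max u v w)) (_ : TopologicalSpace Y) (_ : CompactSpace Y) (_ : T2Space Y)
      (g : Y → X), IsTopologicalBasis {s : Set Y | IsClopen s} ∧ Continuous g ∧
        Function.Surjective g ∧ IsLindelof {u : Y → ℝ | Continuous u}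

end MPd1327c.ZH
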