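import Pool.Agent.Lib.MP_d1327c_gt.ZH.Spec

/-!
# TRE: the Lindelöf property, by a tree of words (from APX, LIM, SLW)
-/

set_option autoImplicit false

open Set Topology TopologicalSpace

namespace MPd1327c.ZH

universe u v

namespace TREM

theorem cl_zero (x : ℝ) : cl 0 x = x := by simp [cl]

theorem cl_dist {n : ℕ} (hn : n ≠ 0) (x y : ℝ) (hx : |x| ≤ 1) : |x - cl n y| ≤ |x - y| := by
  obtain ⟨h1, h2⟩ := abs_le.1 hx
  unfold cl
  rw [if_neg hn]
  rcases le_total 1 y with h | h
  · rw [min_eq_left h, max_eq_right (by norm_num)]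
    rw [abs_of_nonpos (by linarith), abs_of_nonpos (by linarith)]
    linarith
  · rw [min_eq_right h]
    rcases le_total (-1) y with h' | h'
    · rw [max_eq_right h']
    · rw [max_eq_left h']
      rw [abs_of_nonneg (by linarith), abs_of_nonneg (by linarith)]
      linarith

theorem over_countable {Y : Type u} (M : Set (Set Y)) (hM : M.Countable) :
    {w : W Y | Over M w}.Countable := by
  have : Countable M := hM.to_subtype
  have h1 : {L : List (Set Y) | ∀ l ∈ L, l ∈ M}.Countable := by
    rw [← range_list_map_coe]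
    exact countable_range _
  refine (h1.prod (countable_univ (α := List Bool →₀ ℚ))).mono ?_
  rintro ⟨L, φ⟩ h
  exact ⟨h, trivial⟩

theorem overL_countable {Y : Type u} (M : Set (Set Y)) (hM : M.Countable) :
    {s : List (W Y) | OverL M s}.Countable := by
  have : Countable {w : W Y | Over M w} := (over_countable M hM).to_subtype
  have h1 : {s : List (W Y) | ∀ w ∈ s, w ∈ {w : W Y | Over M w}}.Countable := by
    rw [← range_list_map_coe]
    exact countable_range _
  exact h1

end TREM

/-- TRE -/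
theorem specTRE (hAPX : SpecAPX.{u}) (hLIM : SpecLIM.{u}) (hSLW : SpecSLW.{u, v}) :
    SpecTRE.{u, v} := by
  classical
  intro I _ _ _ hI Y _ _ 𝔸 h𝔸 hsep hE
  obtain ⟨hval, hcl, hlim⟩ := hLIM
  apply isLindelof_of_countable_subcover
  intro ι U hU hcov
  have hne : Nonempty ι := by
    obtain ⟨i, -⟩ := mem_iUnion.1 (hcov (show (fun _ : Y => (0 : ℝ)) ∈
      {u : Y → ℝ | Continuous u} from continuous_const))
    exact ⟨i⟩
  let Dd : List (W Y) → Prop := fun s => s ≠ [] ∧ ∃ (i : ι) (E : Finset Y), ∀ g : Y → ℝ,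
    (∀ y ∈ E, |g y - dec s y| ≤ 2 / 2 ^ s.length) → g ∈ U i
  let ii : List (W Y) → ι := fun s => if h : Dd s then h.2.choose else hne.some
  let EE : List (W Y) → Finset Y := fun s => if h : Dd s then h.2.choose_spec.choose else ∅
  have hdec : ∀ s, Dd s → ∀ g : Y → ℝ,
      (∀ y ∈ EE s, |g y - dec s y| ≤ 2 / 2 ^ s.length) → g ∈ U (ii s) := by
    intro s h
    simp only [ii, EE, dif_pos h]
    exact h.2.choose_spec.choose_spec
  obtain ⟨K, M, hS, hKE⟩ := hE EE
  let Good : List (W Y) → I → Prop := fun s i => ∀ a b : Y → ℝ, Continuous a → Continuous b →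
    (s ≠ [] → ∀ y, |a y - b y| ≤ 1 / 2 ^ s.length) → (∀ y ∈ K i, b y = dec s y) →
    ∃ t, Dd t ∧ OverL (M i) t ∧ a ∈ U (ii t)
  -- (1)
  have h1 : ∀ s i, OverL (M i) s → Dd s → Lg {i | Good s i} := by
    intro s i₁ hs hd
    obtain ⟨i₂, hi₂⟩ := hKE s i₁ hs
    refine ((Lg.tail i₁).inter (Lg.tail i₂)).mono ?_
    rintro i ⟨h1, h2⟩ a b _ _ hab hbs
    refine ⟨s, hd, fun w hw l hl => hS.monoM (le_of_lt h1) (hs w hw l hl), hdec s hd a ?_⟩
    intro y hy
    rw [← hbs y (hS.monoK (le_of_lt h2) (hi₂ y hy))]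
    refine (hab hd.1 y).trans ?_
    exact div_le_div_of_nonneg_right (by norm_num) (by positivity)
  -- (2)
  have h2 : ∀ s, (∀ w' j', Over (M j') w' → Lg {i | Good (w' :: s) i}) → Lg {i | Good s i} := by
    intro s hs
    refine (hSLW I hI Y 𝔸 K M hS (fun w' => {i | Good (w' :: s) i}) hs).mono ?_
    intro i hi a b ha hb hab hbs
    obtain ⟨w, hw, hwu⟩ := hAPX Y 𝔸 h𝔸 hsep (fun y => 2 ^ s.length * (a y - b y))
      (continuous_const.mul (ha.sub hb)) (1 / 2) (by norm_num)
    obtain ⟨j, hji, w', ⟨j', hj'⟩, hgood, hval'⟩ := hi w hw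
    have hvw : Continuous (val w) := hval Y w (fun l hl => h𝔸 l (hw l hl))
    have hgood' : Good (w' :: s) j := hgood
    have hA : w' :: s ≠ [] → ∀ y, |a y - (b y + cl s.length (val w y) / 2 ^ s.length)| ≤
        1 / 2 ^ (w' :: s).length := by
      intro _ y
      have hp : (0 : ℝ) < 2 ^ s.length := by positivity
      have h3 : |2 ^ s.length * (a y - b y) - cl s.length (val w y)| ≤ 1 / 2 := by
        have h4 := (hwu y).le
        by_cases hs0 : s = []
        · subst hs0
          rw [List.length_nil, TREM.cl_zero]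
          exact h4
        · refine (TREM.cl_dist (by simpa using hs0) _ _ ?_).trans h4
          rw [abs_mul, abs_of_pos hp]
          have h5 := hab hs0 y
          calc 2 ^ s.length * |a y - b y| ≤ 2 ^ s.length * (1 / 2 ^ s.length) :=
                mul_le_mul_of_nonneg_left h5 hp.le
            _ = 1 := by field_simp
      have h6 : a y - (b y + cl s.length (val w y) / 2 ^ s.length) =
          (2 ^ s.length * (a y - b y) - cl s.length (val w y)) / 2 ^ s.length := by
        field_simp
        ring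
      rw [h6, abs_div, abs_of_pos hp, List.length_cons, pow_succ, div_le_iff₀ hp]
      refine h3.trans (le_of_eq ?_)
      field_simp
    have hB : ∀ y ∈ K j, b y + cl s.length (val w y) / 2 ^ s.length = dec (w' :: s) y := by
      intro y hy
      change b y + cl s.length (val w y) / 2 ^ s.length =
        dec s y + cl s.length (val w' y) / 2 ^ s.length
      rw [hbs y (hS.monoK hji hy), hval' y hy]
    obtain ⟨t, ht1, ht2, ht3⟩ := hgood' a
      (fun y => b y + cl s.length (val w y) / 2 ^ s.length) ha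
      (hb.add (((hcl _).comp hvw).div_const _)) hA hB
    exact ⟨t, ht1, fun w hw l hl => hS.monoM hji (ht2 w hw l hl), ht3⟩
  -- (3)
  have h3 : Lg {i | Good [] i} := by
    by_contra hneg
    have step : ∀ s : List (W Y), ¬ Lg {i | Good s i} →
        ∃ w', (∃ j', Over (M j') w') ∧ ¬ Lg {i | Good (w' :: s) i} := by
      intro s hs
      by_contra hcon
      push Not at hcon
      exact hs (h2 s fun w' j' h => hcon w' ⟨j', h⟩)
    choose! f hf using step
    obtain ⟨S, hS0, hSs⟩ : ∃ S : ℕ → List (W Y), S 0 = [] ∧ ∀ n, S (n + 1) = f (S n) :: S n :=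
      ⟨fun n => Nat.rec [] (fun _ s => f s :: s) n, rfl, fun n => rfl⟩
    have hSneg : ∀ n, ¬ Lg {i | Good (S n) i} := by
      intro n
      induction n with
      | zero =>
        rw [hS0]
        exact hneg
      | succ n ih =>
        rw [hSs]
        exact (hf (S n) ih).2
    have hSover : ∀ n, ∃ i, OverL (M i) (S n) := by
      intro n
      induction n with
      | zero =>
        obtain ⟨i⟩ : Nonempty I := inferInstance
        exact ⟨i, fun w hw => absurd hw (by rw [hS0]; exact List.not_mem_nil)⟩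
      | succ n ih =>
        obtain ⟨i, hi⟩ := ih
        obtain ⟨j, hj⟩ := (hf (S n) (hSneg n)).1
        refine ⟨max i j, fun w hw => ?_⟩
        rw [hSs] at hw
        rcases List.mem_cons.1 hw with h | h
        · subst h
          exact fun l hl => hS.monoM (le_max_right _ _) (hj l hl)
        · exact fun l hl => hS.monoM (le_max_left _ _) (hi w h l hl)
    have hlen : ∀ n, (S n).length = n := by
      intro n
      induction n with
      | zero =>
        rw [hS0]
        rfl
      | succ n ih => rw [hSs, List.length_cons, ih]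
    obtain ⟨g, hg, hgn⟩ := hlim Y S (fun n => f (S n)) hS0 hSs (fun n l hl => by
      obtain ⟨j, hj⟩ := (hf (S n) (hSneg n)).1
      exact hS.clo j l (hj l hl))
    obtain ⟨i, hi⟩ := mem_iUnion.1 (hcov (show g ∈ {u : Y → ℝ | Continuous u} from hg))
    obtain ⟨E, ε, hε, hEε⟩ : ∃ (E : Finset Y) (ε : ℝ), 0 < ε ∧
        ∀ h : Y → ℝ, (∀ y ∈ E, |h y - g y| < ε) → h ∈ U i := by
      obtain ⟨E, w, hw, hwU⟩ := isOpen_pi_iff.1 (hU i) _ hi
      have h4 : ∀ k ∈ E, ∃ r : ℝ, 0 < r ∧ Metric.ball (g k) r ⊆ w k := fun k hk =>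
        Metric.isOpen_iff.1 (hw k hk).1 _ (hw k hk).2
      choose! r hr0 hr using h4
      rcases E.eq_empty_or_nonempty with rfl | hne'
      · exact ⟨∅, 1, one_pos, fun h _ => hwU (by simp)⟩
      · obtain ⟨k0, hk0, hmin⟩ := E.exists_min_image r hne'
        refine ⟨E, r k0, hr0 k0 hk0, fun h hh => hwU ?_⟩
        intro k hk
        refine hr k hk ?_
        rw [Metric.mem_ball, Real.dist_eq]
        exact (hh k hk).trans_le (hmin k hk)
    obtain ⟨n, hn⟩ := exists_pow_lt_of_lt_one (show (0 : ℝ) < ε / 4 by positivity)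
      (show (1 / 2 : ℝ) < 1 by norm_num)
    have hn' : (4 : ℝ) / 2 ^ (n + 1) < ε := by
      have h5 : (1 / 2 : ℝ) ^ n = 1 / 2 ^ n := by rw [one_div, inv_pow, one_div]
      rw [h5] at hn
      have h6 : (4 : ℝ) / 2 ^ (n + 1) = 2 * (1 / 2 ^ n) := by
        rw [pow_succ]
        field_simp
        norm_num
      rw [h6]
      have h7 : (0 : ℝ) < 1 / 2 ^ n := by positivity
      linarith
    have hD : Dd (S (n + 1)) := by
      refine ⟨by rw [hSs]; exact List.cons_ne_nil _ _, i, E, fun h hh => hEε h fun y hy => ?_⟩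
      have h5 := hh y hy
      rw [hlen] at h5
      have h6 := hgn (n + 1) (by omega) y
      rw [abs_sub_comm] at h6
      calc |h y - g y| ≤ |h y - dec (S (n + 1)) y| + |dec (S (n + 1)) y - g y| :=
            abs_sub_le _ _ _
        _ ≤ 2 / 2 ^ (n + 1) + 2 / 2 ^ (n + 1) := add_le_add h5 h6
        _ = 4 / 2 ^ (n + 1) := by ring
        _ < ε := hn'
    obtain ⟨i', hi'⟩ := hSover (n + 1)
    exact hSneg (n + 1) (h1 _ i' hi' hD)
  -- (4)
  obtain ⟨i₀⟩ : Nonempty I := inferInstance
  obtain ⟨i, hi, -⟩ := h3.exists_gt hI i₀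
  have hi' : Good [] i := hi
  refine ⟨ii '' {t | OverL (M i) t}, (TREM.overL_countable (M i) (hS.cnt i)).image _, ?_⟩
  intro g hg
  obtain ⟨t, -, ht2, ht3⟩ := hi' g (fun _ => 0) hg continuous_const
    (fun h => absurd rfl h) (fun y _ => rfl)
  exact mem_biUnion (x := ii t) ⟨t, ht2, rfl⟩ ht3

end MPd1327c.ZH
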