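import Pool.Agent.Lib.MP_d1327c_gt.SPL
import Pool.Agent.Lib.MP_d1327c_gt.ZH.Spec

/-!
# MP_d1327c_gt: the zero-dimensional preimage of a space of countable metrizable height

The first part is a copy of `CST.lean` with `ℝ` replaced by `ℕ → ℝ` as the range of the functions.
-/

set_option autoImplicit false
set_option linter.unusedSectionVars false

open Set Topology TopologicalSpace

namespace MPd1327c.ZH

universe u v w

namespace ZDPM

variable {X : Type u} [TopologicalSpace X] {I : Type v} [LinearOrder I]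

abbrev ZZ (I : Type v) := I × ℕ → Bool

abbrev DD (X : Type u) (I : Type v) := ℕ → Set (X × ZZ I) × Set (X × ZZ I)

/-- the constraint at `γ` -/
def Cn (W : I → DD X I) (γ : I) (y : X × ZZ I) : Prop :=
  ∀ n, (y.2 (γ, n) = true → y ∈ (W γ n).1) ∧ (y.2 (γ, n) = false → y ∈ (W γ n).2)

/-- the constraints below `γ` -/
def Pre (W : I → DD X I) (γ : I) (y : X × ZZ I) : Prop := ∀ β < γ, Cn W β y

structure Good (f : I → X → (ℕ → ℝ)) (F : I → Set X) (S : Set I) (γ : I) (W : I → DD X I)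
    (v : DD X I) : Prop where
  closed : ∀ n, IsClosed (v n).1 ∧ IsClosed (v n).2
  dep : ∀ n (y y' : X × ZZ I), (∀ ξ ≤ γ, f ξ y.1 = f ξ y'.1) →
    (∀ β < γ, ∀ m, y.2 (β, m) = y'.2 (β, m)) →
    (y ∈ (v n).1 ↔ y' ∈ (v n).1) ∧ (y ∈ (v n).2 ↔ y' ∈ (v n).2)
  cover : ∀ n y, y ∈ (v n).1 ∨ y ∈ (v n).2
  miss : ∀ n, ∀ β ≤ γ, β ∈ S → ∀ y : X × ZZ I, y.1 ∈ F β → Pre W γ y →
    ¬(y ∈ (v n).1 ∧ y ∈ (v n).2)
  sep : ∀ y y' : X × ZZ I, f γ y.1 ≠ f γ y'.1 → ∃ n, y ∉ (v n).2 ∧ y' ∉ (v n).1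

variable {f : I → X → (ℕ → ℝ)} {F : I → Set X} {S : Set I}

theorem pre_congr {W W' : I → DD X I} {γ : I} (h : ∀ β < γ, W β = W' β) (y : X × ZZ I) :
    Pre W γ y ↔ Pre W' γ y := by
  refine forall₂_congr fun β hβ => ?_
  rw [Cn, Cn, h β hβ]

theorem good_loc (γ : I) (W W' : I → DD X I) (v : DD X I) (h : ∀ β < γ, W β = W' β)
    (hg : Good f F S γ W v) : Good f F S γ W' v :=
  ⟨hg.closed, hg.dep, hg.cover, fun n β hβ hS y hy hp =>
    hg.miss n β hβ hS y hy ((pre_congr h y).2 hp), hg.sep⟩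

theorem eqf {W : I → DD X I} {ξ : I} (hg : Good f F S ξ W (W ξ)) {y y' : X × ZZ I}
    (hy : Cn W ξ y) (hy' : Cn W ξ y') (h : ∀ m, y.2 (ξ, m) = y'.2 (ξ, m)) :
    f ξ y.1 = f ξ y'.1 := by
  by_contra hne
  obtain ⟨n, h1, h2⟩ := hg.sep y y' hne
  rcases hb : y.2 (ξ, n) with _ | _
  · exact h1 ((hy n).2 hb)
  · exact h2 ((hy' n).1 (by rw [← h n, hb]))

theorem uniq [WellFoundedLT I] {W : I → DD X I} {γ β : I} (hg : ∀ ξ < γ, Good f F S ξ W (W ξ))
    (hβ : β ≤ γ) (hS : β ∈ S)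
    (hB : ∀ x ∈ F β, ∀ x' ∈ F β, (∀ ξ < β, f ξ x = f ξ x') → x = x')
    {y y' : X × ZZ I} (hyF : y.1 ∈ F β) (hyF' : y'.1 ∈ F β) (hy : Pre W γ y) (hy' : Pre W γ y')
    (h : ∀ α < β, ∀ m, y.2 (α, m) = y'.2 (α, m)) :
    y.1 = y'.1 ∧ ∀ α < γ, ∀ m, y.2 (α, m) = y'.2 (α, m) := by
  have h1 : y.1 = y'.1 := hB _ hyF _ hyF' fun ξ hξ =>
    eqf (hg ξ (hξ.trans_le hβ)) (hy ξ (hξ.trans_le hβ)) (hy' ξ (hξ.trans_le hβ)) (h ξ hξ)
  refine ⟨h1, fun α => ?_⟩
  induction α using WellFoundedLT.induction with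
  | ind α ih =>
    intro hα n
    by_cases hαβ : α < β
    · exact h α hαβ n
    push Not at hαβ
    have hd := (hg α hα).dep n y y' (fun ξ _ => by rw [h1]) (fun ζ hζ => ih ζ hζ (hζ.trans hα))
    have hm := (hg α hα).miss n β hαβ hS y hyF (fun ζ hζ => hy ζ (hζ.trans hα))
    rcases hb : y.2 (α, n) with _ | _
    · rcases hb' : y'.2 (α, n) with _ | _
      · rfl
      · exact (hm ⟨hd.1.2 ((hy' α hα n).1 hb'), (hy α hα n).2 hb⟩).elim
    · rcases hb' : y'.2 (α, n) with _ | _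
      · exact (hm ⟨(hy α hα n).1 hb, hd.2.2 ((hy' α hα n).2 hb')⟩).elim
      · rfl

theorem isClosed_cn {W : I → DD X I} {γ : I} (hW : ∀ n, IsClosed (W γ n).1 ∧ IsClosed (W γ n).2) :
    IsClosed {y : X × ZZ I | Cn W γ y} := by
  have h1 : {y : X × ZZ I | Cn W γ y} = ⋂ n, (({y | y.2 (γ, n) = false} ∪ (W γ n).1) ∩
      ({y | y.2 (γ, n) = true} ∪ (W γ n).2)) := by
    ext y
    simp only [Cn, mem_iInter, mem_inter_iff, mem_union, mem_ofPred_eq]
    refine forall_congr' fun n => ?_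
    rcases y.2 (γ, n) with _ | _ <;> simp
  rw [h1]
  have hc : ∀ n, Continuous fun y : X × ZZ I => y.2 (γ, n) := fun n =>
    (continuous_apply (γ, n)).comp continuous_snd
  refine isClosed_iInter fun n => ?_
  refine IsClosed.inter (IsClosed.union ?_ (hW n).1) (IsClosed.union ?_ (hW n).2)
  · exact (isClosed_discrete {false}).preimage (hc n)
  · exact (isClosed_discrete {true}).preimage (hc n)

theorem isClosed_pre {W : I → DD X I} {γ : I}
    (hW : ∀ β < γ, ∀ n, IsClosed (W β n).1 ∧ IsClosed (W β n).2) :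
    IsClosed {y : X × ZZ I | Pre W γ y} := by
  have h1 : {y : X × ZZ I | Pre W γ y} = ⋂ β, ⋂ (_ : β < γ), {y | Cn W β y} := by
    ext y
    simp [Pre]
  rw [h1]
  exact isClosed_iInter fun β => isClosed_iInter fun hβ => isClosed_cn (hW β hβ)

theorem exists_good [CompactSpace X] [WellFoundedLT I]
    (hI : ∀ i : I, (Iio i).Countable) (hf : ∀ i, Continuous (f i)) (hF : ∀ i, IsClosed (F i))
    (hS : ∀ β ∈ S, ∀ x ∈ F β, ∀ x' ∈ F β, (∀ ξ < β, f ξ x = f ξ x') → x = x')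
    (γ : I) (W : I → DD X I) (hW : ∀ β < γ, Good f F S β W (W β)) :
    ∃ v, Good f F S γ W v := by
  classical
  have hc1 : Countable (Iio γ) := (hI γ).to_subtype
  have hIic : (Iic γ).Countable := by
    rw [← Iio_union_right]
    exact (hI γ).union (countable_singleton γ)
  have hc2 : Countable (Iic γ) := hIic.to_subtype
  let P := (Iic γ → (ℕ → ℝ)) × (Iio γ × ℕ → Bool)
  let Φ : X × ZZ I → P := fun y => (fun ξ => f ξ y.1, fun q => y.2 (q.1, q.2))
  have hΦ : Continuous Φ := by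
    refine Continuous.prodMk (continuous_pi fun ξ => (hf ξ).comp continuous_fst)
      (continuous_pi fun q => (continuous_apply _).comp continuous_snd)
  let K := {β : I // β ≤ γ ∧ β ∈ S}
  have hK : Countable K := (hIic.mono (s₁ := {β | β ≤ γ ∧ β ∈ S}) fun β hβ => hβ.1).to_subtype
  let GG : Option K → Set P := fun o => match o with
    | none => ∅
    | some β => Φ '' {y | Pre W γ y ∧ y.1 ∈ F β}
  obtain ⟨e, he⟩ := exists_surjective_nat (Option K)
  have hsplit : ∀ k, ∀ C D : Set P, IsClosed C → IsClosed D → Disjoint C D → ∃ H H' : Set P,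
      IsClosed H ∧ IsClosed H' ∧ H ∪ H' = GG (e k) ∧ Disjoint H H' ∧ GG (e k) ∩ C ⊆ H ∧
        GG (e k) ∩ D ⊆ H' := by
    intro k C D hC hD hCD
    rcases e k with _ | ⟨β, hβγ, hβS⟩
    · refine ⟨∅, ∅, isClosed_empty, isClosed_empty, ?_, ?_, ?_, ?_⟩
      · simp [GG]
      · simp
      · simp [GG]
      · simp [GG]
    · have hcl : IsClosed {y : X × ZZ I | Pre W γ y ∧ y.1 ∈ F β} :=
        (isClosed_pre fun α hα => (hW α hα).closed).inter ((hF β).preimage continuous_fst)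
      have hcomp : IsCompact (GG (some ⟨β, hβγ, hβS⟩)) := hcl.isCompact.image hΦ
      refine split (J := Iio β × ℕ) _ hcomp hcomp.isClosed
        (fun j z => z.2 (⟨j.1, lt_of_lt_of_le j.1.2 hβγ⟩, j.2)) (fun j =>
          (continuous_apply _).comp continuous_snd) ?_ C D hC hD hCD
      rintro _ ⟨y, ⟨hy1, hy2⟩, rfl⟩ _ ⟨y', ⟨hy1', hy2'⟩, rfl⟩ hj
      obtain ⟨h1, h2⟩ := uniq hW hβγ hβS (hS β hβS) hy2 hy2' hy1 hy1'
        (fun α hα m => hj (⟨α, hα⟩, m))
      refine Prod.ext ?_ ?_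
      · funext ξ
        show f ξ y.1 = f ξ y'.1
        rw [h1]
      · funext q
        exact h2 q.1 q.1.2 q.2
  obtain ⟨v, h1, h2, h3, h4⟩ := family (P := P) (fun k => GG (e k)) hsplit
  refine ⟨fun n => (Φ ⁻¹' (v n).1, Φ ⁻¹' (v n).2), ⟨fun n => ⟨(h1 n).1.preimage hΦ,
    (h1 n).2.preimage hΦ⟩, ?_, fun n y => h2 n (Φ y), ?_, ?_⟩⟩
  · intro n y y' hff hee
    have h5 : Φ y = Φ y' := by
      refine Prod.ext ?_ ?_
      · funext ξ
        exact hff ξ ξ.2
      · funext q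
        exact hee q.1 q.1.2 q.2
    simp only [mem_preimage, h5, and_self]
  · intro n β hβγ hβS y hyF hyP
    obtain ⟨k, hk⟩ := he (some ⟨β, hβγ, hβS⟩)
    refine h3 n k (Φ y) ?_
    show Φ y ∈ GG (e k)
    rw [hk]
    exact ⟨y, ⟨hyP, hyF⟩, rfl⟩
  · intro y y' hne
    refine h4 (Φ y) (Φ y') fun h5 => hne ?_
    exact congrFun (congrArg Prod.fst h5) ⟨γ, le_rfl⟩

/-- all the data -/
theorem exists_data [CompactSpace X] [WellFoundedLT I]
    (hI : ∀ i : I, (Iio i).Countable) (hf : ∀ i, Continuous (f i)) (hF : ∀ i, IsClosed (F i))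
    (hS : ∀ β ∈ S, ∀ x ∈ F β, ∀ x' ∈ F β, (∀ ξ < β, f ξ x = f ξ x') → x = x') :
    ∃ W : I → DD X I, ∀ γ, Good f F S γ W (W γ) :=
  exists_rec (fun γ W v => Good f F S γ W v) (fun γ W W' v h hg => good_loc γ W W' v h hg)
    (fun γ W hW => exists_good hI hf hF hS γ W hW)

/-- every partial point extends -/
theorem exists_ext [WellFoundedLT I] {W : I → DD X I} (hW : ∀ γ, Good f F S γ W (W γ)) (δ : I)
    (x : X) (ε : ZZ I) (h : Pre W δ (x, ε)) :
    ∃ ε' : ZZ I, (∀ β < δ, ∀ m, ε' (β, m) = ε (β, m)) ∧ ∀ γ, Cn W γ (x, ε') := by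
  classical
  obtain ⟨w, hw⟩ := exists_rec (I := I) (D := ℕ → Bool)
    (fun γ p v => (γ < δ → ∀ m, v m = ε (γ, m)) ∧
      ∀ n, (v n = true → (x, fun q : I × ℕ => p q.1 q.2) ∈ (W γ n).1) ∧
        (v n = false → (x, fun q : I × ℕ => p q.1 q.2) ∈ (W γ n).2))
    (by
      rintro γ p q v hpq ⟨h1, h2⟩
      refine ⟨h1, fun n => ?_⟩
      have hd := (hW γ).dep n (x, fun r : I × ℕ => p r.1 r.2) (x, fun r : I × ℕ => q r.1 r.2)
        (fun _ _ => rfl) (fun β hβ m => congrFun (hpq β hβ) m)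
      exact ⟨fun hv => hd.1.1 ((h2 n).1 hv), fun hv => hd.2.1 ((h2 n).2 hv)⟩)
    (by
      intro γ p hp
      by_cases hγ : γ < δ
      · refine ⟨fun m => ε (γ, m), fun _ _ => rfl, fun n => ?_⟩
        have hd := (hW γ).dep n (x, ε) (x, fun r : I × ℕ => p r.1 r.2)
          (fun _ _ => rfl) (fun β hβ m => ((hp β hβ).1 (hβ.trans hγ) m).symm)
        exact ⟨fun hv => hd.1.1 ((h γ hγ n).1 hv), fun hv => hd.2.1 ((h γ hγ n).2 hv)⟩
      · refine ⟨fun n => decide ((x, fun r : I × ℕ => p r.1 r.2) ∈ (W γ n).1),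
          fun h => (hγ h).elim, fun n => ⟨fun hv => by simpa using hv, fun hv => ?_⟩⟩
        have h1 : (x, fun r : I × ℕ => p r.1 r.2) ∉ (W γ n).1 := by simpa using hv
        exact ((hW γ).cover n _).resolve_left h1)
  exact ⟨fun q => w q.1 q.2, fun β hβ m => (hw β).1 hβ m, fun γ n => (hw γ).2 n⟩


/-- a continuous function with values in `ℕ → ℝ` which is injective on a given closed second
countable set -/
theorem injf {K : Type w} [TopologicalSpace K] [CompactSpace K] [T2Space K] (C : Set K)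
    (hC : IsClosed C) (hne : C.Nonempty) (h2 : SecondCountableTopology C) :
    ∃ f : K → (ℕ → ℝ), Continuous f ∧ ∀ x ∈ C, ∀ y ∈ C, f x = f y → x = y := by
  have hcomp : CompactSpace C := isCompact_iff_compactSpace.1 hC.isCompact
  have hmet : MetrizableSpace C := metrizableSpace_of_t3_secondCountable C
  let _ := metrizableSpaceMetric C
  have hne' : Nonempty C := hne.to_subtype
  let g : C(C, ℕ → ℝ) := ⟨fun x n => dist x (denseSeq C n),
    continuous_pi fun n => continuous_id.dist continuous_const⟩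
  obtain ⟨G, hG⟩ := ContinuousMap.exists_restrict_eq hC g
  refine ⟨G, G.continuous, fun x hx y hy hxy => ?_⟩
  have h3 : ∀ z : C, G z = g z := fun z => by
    rw [← hG]
    rfl
  have h4 : ∀ n, dist (⟨x, hx⟩ : C) (denseSeq C n) = dist (⟨y, hy⟩ : C) (denseSeq C n) := by
    intro n
    have h5 := h3 ⟨x, hx⟩
    have h6 := h3 ⟨y, hy⟩
    have h7 : g ⟨x, hx⟩ = g ⟨y, hy⟩ := by
      rw [← h5, ← h6]
      exact hxy
    exact congrFun h7 n
  have h5 : (⟨x, hx⟩ : C) = ⟨y, hy⟩ := by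
    have h6 : Continuous fun z : C => dist (⟨x, hx⟩ : C) z := continuous_const.dist continuous_id
    have h7 : Continuous fun z : C => dist (⟨y, hy⟩ : C) z := continuous_const.dist continuous_id
    have h8 : (fun z : C => dist (⟨x, hx⟩ : C) z) = fun z : C => dist (⟨y, hy⟩ : C) z :=
      (denseRange_denseSeq C).equalizer h6 h7 (funext h4)
    have h9 := congrFun h8 ⟨x, hx⟩
    simp only [dist_self] at h9
    exact (dist_eq_zero.1 h9.symm).symm
  exact congrArg Subtype.val h5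

end ZDPM

open ZDPM

/-- **ZDP** -/
theorem specZDP : SpecZDP.{v, w} := by
  intro I _ _ _ hI K _ _ _ o F hF hmono h2c ho hU
  classical
  choose f hf hinj using fun i => injf (F i) (hF i) ⟨o, ho i⟩ (h2c i)
  let F' : I → Set K := fun β =>
    if h : ∃ j, j < β ∧ ∀ i < β, i ≤ j then F h.choose else {o}
  have hF' : ∀ β, IsClosed (F' β) := by
    intro β
    by_cases h : ∃ j, j < β ∧ ∀ i < β, i ≤ j
    · simp only [F', dif_pos h]
      exact hF _
    · simp only [F', dif_neg h]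
      exact isClosed_singleton
  have hS : ∀ β ∈ (univ : Set I), ∀ x ∈ F' β, ∀ x' ∈ F' β, (∀ ξ < β, f ξ x = f ξ x') → x = x' := by
    intro β _ x hx x' hx' hxx
    by_cases h : ∃ j, j < β ∧ ∀ i < β, i ≤ j
    · simp only [F', dif_pos h] at hx hx'
      exact hinj _ x hx x' hx' (hxx _ h.choose_spec.1)
    · simp only [F', dif_neg h, mem_singleton_iff] at hx hx'
      rw [hx, hx']
  obtain ⟨W, hW⟩ := exists_data hI hf hF' hS
  let Y := {y : K × ZZ I // ∀ γ, Cn W γ y}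
  have hYc : IsClosed {y : K × ZZ I | ∀ γ, Cn W γ y} := by
    rw [show {y : K × ZZ I | ∀ γ, Cn W γ y} = ⋂ γ, {y | Cn W γ y} by ext; simp]
    exact isClosed_iInter fun γ => isClosed_cn (hW γ).closed
  have hYcomp : CompactSpace Y := isCompact_iff_compactSpace.1 hYc.isCompact
  obtain ⟨m, -, hm⟩ := (wellFounded_lt (α := I)).has_min univ univ_nonempty
  have hm' : ∀ i : I, ¬ i < m := fun i => hm i trivial
  have hunb : ∀ i : I, ∃ j, i < j := fun i => exists_gt' hI i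
  -- uniqueness
  have huniq : ∀ β, ∀ y y' : Y, y.1.1 ∈ F' β → y'.1.1 ∈ F' β →
      (∀ α < β, ∀ n, y.1.2 (α, n) = y'.1.2 (α, n)) → y = y' := by
    intro β y y' hy hy' hj
    have h1 : ∀ γ, β ≤ γ → y.1.1 = y'.1.1 ∧ ∀ α < γ, ∀ n, y.1.2 (α, n) = y'.1.2 (α, n) :=
      fun γ hγ => uniq (γ := γ) (fun ξ _ => hW ξ) hγ (mem_univ β) (hS β (mem_univ β)) hy hy'
        (fun ξ _ => y.2 ξ) (fun ξ _ => y'.2 ξ) hj
    refine Subtype.ext (Prod.ext (h1 β le_rfl).1 ?_)
    funext q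
    obtain ⟨γ, hγ⟩ := hunb q.1
    exact (h1 (max γ β) (le_max_right _ _)).2 q.1 (hγ.trans_le (le_max_left _ _)) q.2
  have hsep : ∀ x y : K, (∀ i, f i x = f i y) → x = y := by
    intro x y hxy
    obtain ⟨i, hi⟩ := hU x
    obtain ⟨j, hj⟩ := hU y
    exact hinj (max i j) x (hmono (le_max_left i j) hi) y (hmono (le_max_right i j) hj) (hxy _)
  have hinj' : ∀ y y' : Y, y.1.2 = y'.1.2 → y = y' := by
    intro y y' h
    refine Subtype.ext (Prod.ext (hsep _ _ fun ξ => ?_) h)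
    exact eqf (hW ξ) (y.2 ξ) (y'.2 ξ) fun m => by rw [h]
  have htd : TotallyDisconnectedSpace Y := by
    refine ⟨isTotallyDisconnected_of_image (f := fun y : Y => y.1.2)
      (continuous_snd.comp continuous_subtype_val).continuousOn (fun y y' h => hinj' y y' h) ?_⟩
    exact isTotallyDisconnected_of_totallyDisconnectedSpace _
  -- lifts
  have hlift : ∀ x : K, ∃ y : Y, y.1.1 = x := by
    intro x
    obtain ⟨ε, -, hε⟩ := exists_ext hW m x (fun _ => false) (fun β hβ => (hm' β hβ).elim)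
    exact ⟨⟨(x, ε), hε⟩, rfl⟩
  refine ⟨Y, inferInstance, hYcomp, inferInstance, htd, fun y => y.1.1,
    continuous_fst.comp continuous_subtype_val, hlift, ?_, ?_⟩
  · intro z z' hz hz'
    have hFm : F' m = {o} := dif_neg (fun ⟨j, hj, _⟩ => hm' j hj)
    refine huniq m z z' ?_ ?_ fun α hα => (hm' α hα).elim
    · rw [hFm]
      exact hz
    · rw [hFm]
      exact hz'
  · intro i
    obtain ⟨β, hβ, hmin⟩ := (wellFounded_lt (α := I)).has_min {b | i < b} (hunb i)
    have hle : ∀ k < β, k ≤ i := fun k hk => not_lt.1 fun h => hmin k h hk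
    have hex : ∃ j, j < β ∧ ∀ i < β, i ≤ j := ⟨i, hβ, hle⟩
    have hch : hex.choose = i :=
      le_antisymm (hle _ hex.choose_spec.1) (hex.choose_spec.2 i hβ)
    have hFβ : F' β = F i := by
      simp only [F', dif_pos hex, hch]
    have hcl : IsClosed ((fun y : Y => y.1.1) ⁻¹' F i) :=
      (hF i).preimage (continuous_fst.comp continuous_subtype_val)
    have hcomp : CompactSpace ((fun y : Y => y.1.1) ⁻¹' F i) :=
      isCompact_iff_compactSpace.1 hcl.isCompact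
    have hc1 : Countable (Iio β) := (hI β).to_subtype
    let ψ : ((fun y : Y => y.1.1) ⁻¹' F i) → (Iio β × ℕ → Bool) := fun y q => y.1.1.2 (q.1, q.2)
    have hψ : Continuous ψ := continuous_pi fun q =>
      (continuous_apply _).comp (continuous_snd.comp
        (continuous_subtype_val.comp continuous_subtype_val))
    have hψi : Function.Injective ψ := by
      intro y y' h
      refine Subtype.ext (huniq β _ _ ?_ ?_ fun α hα n => congrFun h (⟨α, hα⟩, n))
      · rw [hFβ]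
        exact y.2
      · rw [hFβ]
        exact y'.2
    exact (hψ.isClosedEmbedding hψi).isEmbedding.secondCountableTopology

end MPd1327c.ZH
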